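import Pool.Agent.Q111.AE.Fell

/-!
A vector of a module over `C*_r(Q)` whose orbit spans a finite-dimensional space is zero, if `Q`
is not amenable.
-/

set_option autoImplicit false
set_option linter.unusedSectionVars false

open scoped Matrix ENNReal

namespace Pool.Agent.Q111.AE

open Pool.Agent.H919R4.ZS
open Pool.Agent.TH38.ZT (ExAt contraction' ex_comp hom_ext_single)
open MonoidAlgebra (single)

noncomputable section

variable {Q : Type} [Group Q]

instance : CompleteSpace (Hil Q) := inferInstanceAs (CompleteSpace (lp (fun _ : Q => ℂ) 2))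

variable (Q) in
/-- `C*_r(Q)` as a complex subalgebra -/
def redA : Subalgebra ℂ (Op Q) where
  carrier := redCstar Q
  mul_mem' := (redCstar Q).mul_mem
  one_mem' := (redCstar Q).one_mem
  add_mem' := (redCstar Q).add_mem
  zero_mem' := (redCstar Q).zero_mem
  algebraMap_mem' := fun c => by
    have h1 : (algebraMap ℂ (Op Q) c) = c • (lreg 1 : Op Q) := by
      rw [lreg_one, Algebra.algebraMap_eq_smul_one]
    rw [h1]
    exact Subring.le_topologicalClosure _ (Subring.subset_closure ⟨c, 1, rfl⟩)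

lemma isClosed_redA : IsClosed (redA Q : Set (Op Q)) :=
  (Subring.isClosed_topologicalClosure (groupRing Q))

instance : CompleteSpace (redA Q) := (isClosed_redA (Q := Q)).completeSpace_coe

/-- the identity -/
def toSA : RedC Q →+* redA Q where
  toFun a := ⟨a.1, a.2⟩
  map_one' := rfl
  map_mul' _ _ := rfl
  map_zero' := rfl
  map_add' _ _ := rfl

/-- the identity -/
def ofSA : redA Q →+* RedC Q where
  toFun a := (⟨a.1, a.2⟩ : redCstar Q)
  map_one' := rfl
  map_mul' _ _ := rfl
  map_zero' := rfl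
  map_add' _ _ := rfl

/-- the group elements -/
def lam (g : Q) : redA Q :=
  ⟨lreg g, by
    have h := Subring.le_topologicalClosure (groupRing Q) (Subring.subset_closure ⟨1, g, rfl⟩)
    rw [one_smul] at h
    exact h⟩

lemma lam_mul (g h : Q) : lam (g * h) = lam g * lam h := Subtype.ext ((lregHom Q).map_mul g h)

lemma lam_one : lam (1 : Q) = 1 := Subtype.ext lreg_one

lemma norm_lam (g : Q) : ‖lam g‖ ≤ 1 := by
  refine ContinuousLinearMap.opNorm_le_bound (lreg g : Op Q) zero_le_one (fun f => ?_)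
  rw [one_mul]
  exact (norm_shift g f).le

lemma toSA_toRed (g : Q) : toSA (toRed Q (single g 1)) = lam g := by
  refine Subtype.ext ?_
  change MonoidAlgebra.liftNC _ _ _ = _
  rw [MonoidAlgebra.liftNC_single]
  change ((1 : ℤ) : Op Q) * lregHom Q g = lreg g
  rw [Int.cast_one, one_mul]
  rfl

lemma toSA_sc (c : ℂ) : toSA (sc c : RedC Q) = c • (1 : redA Q) := by
  refine Subtype.ext ?_
  change c • (lreg 1 : Op Q) = c • 1
  rw [lreg_one]

/-- finite dimensionality of the image under a map which factors on a subspace -/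
lemma fd_aux {A V W : Type} [AddCommGroup A] [Module ℂ A] [AddCommGroup V] [Module ℂ V]
    [AddCommGroup W] [Module ℂ W] (A0 : Submodule ℂ A) (Ψ : A →ₗ[ℂ] V) (q : A →ₗ[ℂ] W)
    (hker : ∀ x ∈ A0, Ψ x = 0 → q x = 0) (P : Submodule ℂ V) [FiniteDimensional ℂ P]
    (hP : ∀ x ∈ A0, Ψ x ∈ P) (E : Submodule ℂ W) (hE : E ≤ A0.map q) :
    FiniteDimensional ℂ E := by
  let Ψ0 : A0 →ₗ[ℂ] V := Ψ.domRestrict A0
  let q0 : A0 →ₗ[ℂ] W := q.domRestrict A0
  have hk : LinearMap.ker Ψ0 ≤ LinearMap.ker q0 := fun x hx => hker x x.2 hx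
  have hr : LinearMap.range Ψ0 ≤ P := by
    rintro _ ⟨x, rfl⟩
    exact hP x x.2
  have : FiniteDimensional ℂ (LinearMap.range Ψ0) := Submodule.finiteDimensional_of_le hr
  have : FiniteDimensional ℂ (A0 ⧸ LinearMap.ker Ψ0) :=
    (Ψ0.quotKerEquivRange).symm.finiteDimensional
  have h4 : E ≤ LinearMap.range ((LinearMap.ker Ψ0).liftQ q0 hk) := by
    refine hE.trans ?_
    rintro _ ⟨x, hx, rfl⟩
    exact ⟨Submodule.Quotient.mk ⟨x, hx⟩, rfl⟩
  exact Submodule.finiteDimensional_of_le h4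

/-- a finite-dimensional space of bounded functions -/
lemma basis_aux {W : Type} [NormedAddCommGroup W] [NormedSpace ℂ W] (L : Q → (W →ₗ[ℂ] W))
    (L1 : L 1 = LinearMap.id) (Lm : ∀ g h, L (g * h) = L g ∘ₗ L h) (hL : ∀ g w, ‖L g w‖ ≤ ‖w‖)
    (E : Submodule ℂ W) [FiniteDimensional ℂ E] (hinv : ∀ g, ∀ w ∈ E, L g w ∈ E)
    (w0 : W) (hw0 : w0 ∈ E) (hw : w0 ≠ 0) :
    ∃ (m : ℕ) (π : Q →* Matrix (Fin m) (Fin m) ℂ) (B : ℝ) (b : Fin m → W),
      (∀ g i j, ‖π g i j‖ ≤ B) ∧ b ≠ 0 ∧
      ∀ g i, ∑ j, π g i j • L g (b j) = b i := by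
  let act : Q → (E →ₗ[ℂ] E) := fun g => (L g).restrict (hinv g)
  have act_coe : ∀ g (x : E), ((act g x : E) : W) = L g (x : W) := fun g x => rfl
  have act_one : act 1 = LinearMap.id := by
    refine LinearMap.ext fun x => Subtype.ext ?_
    rw [act_coe, L1]; rfl
  have act_mul : ∀ g h, act (g * h) = act g ∘ₗ act h := by
    intro g h
    refine LinearMap.ext fun x => Subtype.ext ?_
    rw [act_coe, Lm]; rfl
  let m := Module.finrank ℂ E
  let b : Module.Basis (Fin m) ℂ E := Module.finBasis ℂ E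
  let π : Q →* Matrix (Fin m) (Fin m) ℂ :=
    { toFun := fun g => (LinearMap.toMatrix b b (act g⁻¹))ᵀ
      map_one' := by
        rw [inv_one, act_one, LinearMap.toMatrix_id, Matrix.transpose_one]
      map_mul' := fun g h => by
        rw [mul_inv_rev, act_mul, LinearMap.toMatrix_comp b b b, Matrix.transpose_mul] }
  have π_apply : ∀ g i j, π g i j = b.equivFun (act g⁻¹ (b i)) j := by
    intro g i j
    change (LinearMap.toMatrix b b (act g⁻¹))ᵀ i j = _
    rw [Matrix.transpose_apply, LinearMap.toMatrix_apply]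
    rfl
  let F : E →L[ℂ] (Fin m → ℂ) := LinearMap.toContinuousLinearMap b.equivFun.toLinearMap
  refine ⟨m, π, ‖F‖ * ∑ k, ‖b k‖, fun k => (b k : W), ?_, ?_, ?_⟩
  · intro g i j
    rw [π_apply]
    have h1 : ‖b.equivFun (act g⁻¹ (b i)) j‖ ≤ ‖F (act g⁻¹ (b i))‖ := norm_le_pi_norm _ j
    refine h1.trans ((F.le_opNorm _).trans ?_)
    refine mul_le_mul_of_nonneg_left ?_ (norm_nonneg _)
    have h2 : ‖act g⁻¹ (b i)‖ ≤ ‖b i‖ := hL g⁻¹ (b i : W)
    exact h2.trans (Finset.single_le_sum (f := fun k => ‖b k‖) (fun k _ => norm_nonneg _)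
      (Finset.mem_univ i))
  · intro hb
    have h1 : ∀ x : E, x = 0 := by
      intro x
      rw [← b.sum_equivFun x]
      refine Finset.sum_eq_zero fun i _ => ?_
      have h2 : b i = 0 := Subtype.ext (congrFun hb i)
      rw [h2, smul_zero]
    have h3 := h1 ⟨w0, hw0⟩
    exact hw (congrArg Subtype.val h3)
  · intro g i
    simp only [π_apply]
    have h2 : ∑ j, b.equivFun (act g⁻¹ (b i)) j • L g (b j : W) =
        L g (∑ j, b.equivFun (act g⁻¹ (b i)) j • (b j : W)) := by
      rw [map_sum]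
      exact Finset.sum_congr rfl fun j _ => by rw [map_smul]
    rw [h2]
    have h3 : ∑ j, b.equivFun (act g⁻¹ (b i)) j • (b j : W) = ((act g⁻¹ (b i) : E) : W) := by
      have h4 : ((∑ j, b.equivFun (act g⁻¹ (b i)) j • b j : E) : W) =
          ((act g⁻¹ (b i) : E) : W) := congrArg _ (b.sum_equivFun (act g⁻¹ (b i)))
      rw [← h4, Submodule.coe_sum]
      rfl
    rw [h3, act_coe]
    have h5 := LinearMap.congr_fun (Lm g g⁻¹) (b i : W)
    rw [mul_inv_cancel, L1] at h5
    exact h5.symm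

section quot

variable (J : Ideal (redA Q))

lemma norm_lam_smul (g : Q) (w : redA Q ⧸ J) : ‖lam g • w‖ ≤ ‖w‖ := by
  refine le_of_forall_pos_le_add fun ε hε => ?_
  obtain ⟨a, ha1, ha2⟩ := Submodule.Quotient.norm_mk_lt (S := J) w hε
  have h5 : lam g • w = (Submodule.Quotient.mk (lam g * a) : redA Q ⧸ J) := by
    rw [← ha1]; rfl
  rw [h5]
  refine (Submodule.Quotient.norm_mk_le J _).trans ?_
  refine (norm_mul_le _ _).trans ?_
  exact (mul_le_of_le_one_left (norm_nonneg a) (norm_lam g)).trans ha2.le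

/-- the action of the group on the quotient -/
def LgJ (g : Q) : (redA Q ⧸ J) →ₗ[ℂ] (redA Q ⧸ J) where
  toFun w := lam g • w
  map_add' x y := smul_add _ x y
  map_smul' c w := by
    obtain ⟨a, rfl⟩ := Submodule.mkQ_surjective J w
    change (Submodule.Quotient.mk (lam g * (c • a)) : redA Q ⧸ J) =
      c • (Submodule.Quotient.mk (lam g * a) : redA Q ⧸ J)
    rw [mul_smul_comm]
    rfl

/-- the quotient map -/
def qJ : redA Q →ₗ[ℂ] (redA Q ⧸ J) where
  toFun a := Submodule.Quotient.mk a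
  map_add' _ _ := rfl
  map_smul' _ _ := rfl

/-- the span of the group elements in the quotient -/
def EJ : Submodule ℂ (redA Q ⧸ J) := Submodule.span ℂ (Set.range fun g : Q => qJ J (lam g))

lemma core2 [hcl : IsClosed (J : Set (redA Q))] (hJ : J ≠ ⊤) [FiniteDimensional ℂ (EJ J)] :
    ∃ (m : ℕ) (π : Q →* Matrix (Fin m) (Fin m) ℂ) (B : ℝ) (b : Fin m → redA Q ⧸ J),
      (∀ g i j, ‖π g i j‖ ≤ B) ∧ b ≠ 0 ∧
      ∀ g i, ∑ j, π g i j • LgJ J g (b j) = b i := by
  have hmem : qJ J (lam (1 : Q)) ∈ EJ J := Submodule.subset_span ⟨1, rfl⟩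
  refine basis_aux (LgJ J) ?_ ?_ (norm_lam_smul J) (EJ J) ?_ (qJ J (lam (1 : Q))) hmem ?_
  · refine LinearMap.ext fun w => ?_
    change lam (1 : Q) • w = w
    rw [lam_one, one_smul]
  · intro g h
    refine LinearMap.ext fun w => ?_
    change lam (g * h) • w = lam g • lam h • w
    rw [lam_mul, mul_smul]
  · intro g w hw
    refine Submodule.span_induction (p := fun w _ => LgJ J g w ∈ EJ J) ?_ ?_ ?_ ?_ hw
    · rintro _ ⟨h, rfl⟩
      have h1 : LgJ J g (qJ J (lam h)) = qJ J (lam (g * h)) := by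
        rw [lam_mul]; rfl
      rw [h1]
      exact Submodule.subset_span ⟨g * h, rfl⟩
    · rw [map_zero]; exact Submodule.zero_mem _
    · intro x y _ _ hx hy
      rw [map_add]; exact Submodule.add_mem _ hx hy
    · intro c x _ hx
      rw [map_smul]; exact Submodule.smul_mem _ _ hx
  · intro h
    apply hJ
    rw [Ideal.eq_top_iff_one, ← lam_one (Q := Q)]
    exact (Submodule.Quotient.mk_eq_zero J).1 h

end quot

theorem core (V : Type) [AddCommGroup V] [Module (RedC Q) V] (v : V) (hv : v ≠ 0)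
    (hfin : ∃ (n : ℕ) (w : Fin n → V), ∀ g : Q, ∃ c : Fin n → ℂ,
      toRed Q (single g 1) • v = ∑ i, (sc (c i) : RedC Q) • w i) :
    ∃ (W : Type) (_ : AddCommGroup W) (_ : Module (RedC Q) W) (m : ℕ)
      (π : Q →* Matrix (Fin m) (Fin m) ℂ) (B : ℝ) (b : Fin m → W),
      (∀ g i j, ‖π g i j‖ ≤ B) ∧ b ≠ 0 ∧
      ∀ g i, ∑ j, (sc (π g i j) : RedC Q) • toRed Q (single g 1) • b j = b i := by
  let i1 : Module (redA Q) V := Module.compHom V ofSA
  let i2 : Module ℂ V := Module.compHom V (algebraMap ℂ (redA Q))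
  have hlv : ∀ g : Q, lam g • v = toRed Q (single g 1) • v := by
    intro g
    change ofSA (lam g) • v = _
    rw [← toSA_toRed]
    rfl
  let L : Ideal (redA Q) := LinearMap.ker (LinearMap.toSpanSingleton (redA Q) V v)
  have hL : L ≠ ⊤ := by
    intro h
    have h1 : (1 : redA Q) ∈ L := by rw [h]; trivial
    have h2 : (1 : redA Q) • v = 0 := h1
    rw [one_smul] at h2
    exact hv h2
  have hJ : L.closure ≠ ⊤ := L.closure_ne_top hL
  have hLJ : L ≤ L.closure := fun x hx => subset_closure hx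
  have hcl : IsClosed (L.closure : Set (redA Q)) := isClosed_closure
  obtain ⟨n, w, hw⟩ := hfin
  have hsm : ∀ (c : ℂ) (x : V), (sc c : RedC Q) • x = c • x := by
    intro c x
    change _ = ofSA (algebraMap ℂ (redA Q) c) • x
    congr 1
    refine Subtype.ext ?_
    change c • (lreg 1 : Op Q) = algebraMap ℂ (Op Q) c
    rw [lreg_one, Algebra.algebraMap_eq_smul_one]
  let Ψ : redA Q →ₗ[ℂ] V :=
    { toFun := fun a => a • v
      map_add' := fun a b => add_smul a b v
      map_smul' := fun c a => by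
        change (c • a) • v = (algebraMap ℂ (redA Q) c) • (a • v)
        rw [smul_smul, Algebra.smul_def] }
  have hfd : FiniteDimensional ℂ (Submodule.span ℂ (Set.range w)) :=
    FiniteDimensional.span_of_finite ℂ (Set.finite_range w)
  have hE : FiniteDimensional ℂ (EJ L.closure) := by
    refine fd_aux (Submodule.span ℂ (Set.range (lam (Q := Q)))) Ψ (qJ L.closure) ?_
      (Submodule.span ℂ (Set.range w)) ?_ _ ?_
    · intro x _ hx
      exact (Submodule.Quotient.mk_eq_zero L.closure).2 (hLJ hx)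
    · intro x hx
      refine Submodule.span_induction (p := fun x _ => Ψ x ∈ Submodule.span ℂ (Set.range w))
        ?_ ?_ ?_ ?_ hx
      · rintro _ ⟨g, rfl⟩
        obtain ⟨c, hc⟩ := hw g
        change lam g • v ∈ _
        rw [hlv, hc]
        refine Submodule.sum_mem _ fun i _ => ?_
        rw [hsm]
        exact Submodule.smul_mem _ _ (Submodule.subset_span ⟨i, rfl⟩)
      · rw [map_zero]; exact Submodule.zero_mem _
      · intro x y _ _ hx hy
        rw [map_add]; exact Submodule.add_mem _ hx hy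
      · intro c x _ hx
        rw [map_smul]; exact Submodule.smul_mem _ _ hx
    · refine Submodule.span_le.2 ?_
      rintro _ ⟨g, rfl⟩
      exact ⟨lam g, Submodule.subset_span ⟨g, rfl⟩, rfl⟩
  obtain ⟨m, π, B, b, h1, h2, h3⟩ := core2 L.closure hJ
  refine ⟨redA Q ⧸ L.closure, inferInstance, Module.compHom _ toSA, m, π, B, b, h1, h2, ?_⟩
  intro g i
  have h5 := h3 g i
  refine Eq.trans ?_ h5
  refine Finset.sum_congr rfl fun j _ => ?_
  change toSA (sc (π g i j) : RedC Q) • toSA (toRed Q (single g 1)) • b j = π g i j • lam g • b j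
  rw [toSA_toRed, toSA_sc, smul_assoc, one_smul]

end

end Pool.Agent.Q111.AE
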