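import Pool.Agent.Q111.AE.ExtTools

/-!
`Ext` groups and complexes of projective modules.
-/

set_option autoImplicit false
set_option linter.unusedSectionVars false

namespace Pool.Agent.Q111.AE

variable {R : Type} [Ring R]

variable (A : ℕ → Type) [∀ k, AddCommGroup (A k)] [∀ k, Module R (A k)]
  (a : ∀ k, A (k + 1) →ₗ[R] A k) {V : Type} [AddCommGroup V] [Module R V]

/-- the homology at `A (k+1)` -/
abbrev HH (k : ℕ) : Type :=
  LinearMap.ker (a k) ⧸ (LinearMap.range (a (k + 1))).submoduleOf (LinearMap.ker (a k))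

/-- every homomorphism on the kernel extends, if the cochain complex is exact -/
lemma extends_of_exact (haa : ∀ k x, a k (a (k + 1) x) = 0) (p : ℕ)
    (hp : ∀ v : A (p + 2) →ₗ[R] V, (∀ x, v (a (p + 2) x) = 0) →
      ∃ w : A (p + 1) →ₗ[R] V, ∀ x, v x = w (a (p + 1) x))
    (hH : ∀ f : HH A a p →ₗ[R] V, f = 0) (h : LinearMap.ker (a p) →ₗ[R] V) :
    ∃ h' : A (p + 1) →ₗ[R] V, ∀ x : LinearMap.ker (a p), h' x = h x := by
  have hr : ∀ x, a (p + 1) x ∈ LinearMap.ker (a p) := fun x => haa p x
  obtain ⟨w, hw⟩ := hp (h ∘ₗ (a (p + 1)).codRestrict (LinearMap.ker (a p)) hr) (by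
    intro x
    have h1 : (a (p + 1)).codRestrict (LinearMap.ker (a p)) hr (a (p + 2) x) = 0 :=
      Subtype.ext (haa (p + 1) x)
    rw [LinearMap.comp_apply, h1, map_zero])
  refine ⟨w, fun x => ?_⟩
  set t : LinearMap.ker (a p) →ₗ[R] V := w ∘ₗ (LinearMap.ker (a p)).subtype - h with ht
  have h2 : (LinearMap.range (a (p + 1))).submoduleOf (LinearMap.ker (a p)) ≤ LinearMap.ker t := by
    rintro ⟨y, hy⟩ ⟨z, hz⟩
    rw [LinearMap.mem_ker, ht, LinearMap.sub_apply, sub_eq_zero]
    have h3 := hw z
    rw [LinearMap.comp_apply] at h3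
    have h4 : (a (p + 1)).codRestrict (LinearMap.ker (a p)) hr z = ⟨y, hy⟩ := Subtype.ext hz
    rw [h4] at h3
    rw [h3]
    change w y = w (a (p + 1) z)
    rw [show a (p + 1) z = y from hz]
  have h3 := hH (Submodule.liftQ _ t h2)
  have h4 : t x = 0 := by
    have h5 := LinearMap.congr_fun h3 (Submodule.Quotient.mk x)
    rwa [Submodule.liftQ_apply] at h5
  rw [ht, LinearMap.sub_apply, sub_eq_zero] at h4
  exact h4

/-- vanishing of `Ext` from exactness of the cochain complex -/
theorem ev_of_exact (haa : ∀ k x, a k (a (k + 1) x) = 0)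
    (hproj : ∀ k, Module.Projective R (A (k + 1))) (p : ℕ)
    (hp : ∀ v : A (p + 2) →ₗ[R] V, (∀ x, v (a (p + 2) x) = 0) →
      ∃ w : A (p + 1) →ₗ[R] V, ∀ x, v x = w (a (p + 1) x))
    (hH : ∀ k ≤ p, EV R (p - k) (HH A a k) V) : EV R (p + 1) (LinearMap.range (a 0)) V := by
  have key : ∀ j k, k + j = p → EV R (j + 1) (LinearMap.range (a k)) V := by
    intro j
    induction j with
    | zero =>
      intro k hk
      have hk' : k = p := by omega
      subst hk'
      have hpr := hproj k
      refine ev_up_one (a k).rangeRestrict (LinearMap.surjective_rangeRestrict _) (ev_proj 0) ?_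
      intro h
      have e : LinearMap.ker (a k).rangeRestrict = LinearMap.ker (a k) :=
        LinearMap.ker_rangeRestrict _
      have h0 := hH k le_rfl
      rw [Nat.sub_self] at h0
      obtain ⟨h', hh'⟩ := extends_of_exact A a haa k hp (ev_zero_iff.1 h0)
        (h ∘ₗ (LinearEquiv.ofEq _ _ e.symm).toLinearMap)
      refine ⟨h', fun x => ?_⟩
      have := hh' ⟨x.1, e ▸ x.2⟩
      rw [this]
      rfl
    | succ j ih =>
      intro k hk
      have hpr := hproj k
      have h1 := ih (k + 1) (by omega)
      have h2 : EV R (j + 1) (LinearMap.ker (a k)) V := by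
        refine ev_mid (Submodule.mkQ ((LinearMap.range (a (k + 1))).submoduleOf
          (LinearMap.ker (a k)))) (Submodule.mkQ_surjective _) (j + 1) ?_ ?_
        · have hle : LinearMap.range (a (k + 1)) ≤ LinearMap.ker (a k) := by
            rintro _ ⟨x, rfl⟩
            exact haa k x
          exact ev_congr ((Submodule.submoduleOfEquivOfLe hle).symm.trans
            (LinearEquiv.ofEq _ _ (Submodule.ker_mkQ ((LinearMap.range (a (k + 1))).submoduleOf
              (LinearMap.ker (a k)))).symm)) _ h1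
        · have h3 := hH k (by omega)
          rwa [show p - k = j + 1 by omega] at h3
      refine ev_up (a k).rangeRestrict (LinearMap.surjective_rangeRestrict _) (j + 1)
        (ev_proj (j + 1)) ?_
      exact ev_congr (LinearEquiv.ofEq _ _ (LinearMap.ker_rangeRestrict _).symm) _ h2
  exact key p 0 (by omega)

/-- exactness of the cochain complex from vanishing of `Ext` -/
theorem exact_of_ev (haa : ∀ k x, a k (a (k + 1) x) = 0)
    (hex : ∀ k x, a k x = 0 → ∃ y, a (k + 1) y = x)
    (hproj : ∀ k, Module.Projective R (A (k + 1))) (p : ℕ)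
    (h : EV R (p + 1) (LinearMap.range (a 0)) V) :
    ∀ v : A (p + 2) →ₗ[R] V, (∀ x, v (a (p + 2) x) = 0) →
      ∃ w : A (p + 1) →ₗ[R] V, ∀ x, v x = w (a (p + 1) x) := by
  have hkr : ∀ k, LinearMap.ker (a k) = LinearMap.range (a (k + 1)) := by
    intro k
    ext x
    constructor
    · intro hx
      exact hex k x hx
    · rintro ⟨y, rfl⟩
      exact haa k y
  have key : ∀ k, k ≤ p → EV R (p - k + 1) (LinearMap.range (a k)) V := by
    intro k
    induction k with
    | zero => intro _; rw [Nat.sub_zero]; exact h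
    | succ k ih =>
      intro hk
      have h1 := ih (by omega)
      have hpr := hproj k
      rw [show p - k + 1 = (p - (k + 1) + 1) + 1 by omega] at h1
      have h2 := ev_down (a k).rangeRestrict (LinearMap.surjective_rangeRestrict _)
        (p - (k + 1) + 1) (ev_proj _) h1
      exact ev_congr (LinearEquiv.ofEq _ _ ((LinearMap.ker_rangeRestrict _).trans (hkr k))) _ h2
  intro v hv
  have h1 := key p le_rfl
  rw [Nat.sub_self] at h1
  -- `v` factors through the range of `a (p+1)`
  obtain ⟨t, ht⟩ : ∃ t : LinearMap.range (a (p + 1)) →ₗ[R] V, ∀ x, t ((a (p + 1)).rangeRestrict x) =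
      v x := by
    have hle : LinearMap.ker (a (p + 1)).rangeRestrict ≤ LinearMap.ker v := by
      rw [LinearMap.ker_rangeRestrict, hkr (p + 1)]
      rintro _ ⟨x, rfl⟩
      exact hv x
    refine ⟨(Submodule.liftQ _ v hle) ∘ₗ
      ((a (p + 1)).rangeRestrict.quotKerEquivOfSurjective
        (LinearMap.surjective_rangeRestrict _)).symm.toLinearMap, fun x => ?_⟩
    rw [LinearMap.comp_apply]
    have h3 : ((a (p + 1)).rangeRestrict.quotKerEquivOfSurjective
        (LinearMap.surjective_rangeRestrict _)).symm ((a (p + 1)).rangeRestrict x) =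
        Submodule.Quotient.mk x := by
      rw [LinearEquiv.symm_apply_eq]
      rfl
    change (Submodule.liftQ _ v hle) (((a (p + 1)).rangeRestrict.quotKerEquivOfSurjective
        (LinearMap.surjective_rangeRestrict _)).symm ((a (p + 1)).rangeRestrict x)) = _
    rw [h3, Submodule.liftQ_apply]
  have e : LinearMap.ker (a p).rangeRestrict = LinearMap.range (a (p + 1)) :=
    (LinearMap.ker_rangeRestrict _).trans (hkr p)
  obtain ⟨w, hw⟩ := ev_down_one (a p).rangeRestrict (LinearMap.surjective_rangeRestrict _) h1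
    (t ∘ₗ (LinearEquiv.ofEq _ _ e).toLinearMap)
  refine ⟨w, fun x => ?_⟩
  have h4 := hw ⟨a (p + 1) x, by rw [e]; exact ⟨x, rfl⟩⟩
  rw [← ht x]
  exact h4.symm

end Pool.Agent.Q111.AE
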