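import Mathlib

/-!
Vanishing of `Ext` groups of modules over a ring, and complexes.
-/

set_option autoImplicit false
set_option linter.unusedSectionVars false

namespace Pool.Agent.Q111.AE

open CategoryTheory Abelian

variable {R : Type} [Ring R]

/-- `Ext^n_R(M, V) = 0` -/
def EV (R : Type) [Ring R] (n : ℕ) (M V : Type) [AddCommGroup M] [Module R M] [AddCommGroup V]
    [Module R V] : Prop :=
  Subsingleton (Ext (ModuleCat.of R M) (ModuleCat.of R V) n)

section

variable {B C V : Type} [AddCommGroup B] [Module R B] [AddCommGroup C] [Module R C]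
  [AddCommGroup V] [Module R V]

lemma ev_zero_iff : EV R 0 B V ↔ ∀ f : B →ₗ[R] V, f = 0 := by
  constructor
  · intro h f
    have h1 : (Ext.mk₀ (ModuleCat.ofHom f) : Ext (ModuleCat.of R B) (ModuleCat.of R V) 0) =
        Ext.mk₀ 0 := h.elim _ _
    have h2 := Ext.mk₀_bijective _ _ |>.1 h1
    exact congrArg (fun g => g.hom) h2
  · intro h
    refine ⟨fun x y => ?_⟩
    obtain ⟨f, rfl⟩ := (Ext.mk₀_bijective _ _).2 x
    obtain ⟨g, rfl⟩ := (Ext.mk₀_bijective _ _).2 y
    congr 1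
    refine ModuleCat.hom_ext ?_
    rw [h f.hom, h g.hom]

lemma ev_of_subsingleton [Subsingleton B] (n : ℕ) : EV R n B V := by
  refine ⟨fun x y => ?_⟩
  have h0 : (𝟙 (ModuleCat.of R B)) = 0 := by
    refine ModuleCat.hom_ext (LinearMap.ext fun b => Subsingleton.elim (α := B) _ _)
  have h1 : ∀ x : Ext (ModuleCat.of R B) (ModuleCat.of R V) n, x = 0 := by
    intro x
    rw [← Ext.mk₀_id_comp x, h0, Ext.mk₀_zero, Ext.zero_comp]
  rw [h1 x, h1 y]

lemma ev_proj [Module.Projective R B] (n : ℕ) : EV R (n + 1) B V := by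
  have : Projective (ModuleCat.of R B) := (IsProjective.iff_projective B).1 inferInstance
  exact Ext.subsingleton_of_projective _ _ n

/-- the middle term -/
lemma ev_mid (g : B →ₗ[R] C) (hg : Function.Surjective g) (n : ℕ)
    (hK : EV R n (LinearMap.ker g) V) (hC : EV R n C V) : EV R n B V := by
  have hS := LinearMap.shortExact_shortComplexKer hg
  have h1 : ∀ x : Ext (ModuleCat.of R B) (ModuleCat.of R V) n, x = 0 := by
    intro x
    obtain ⟨x1, hx1⟩ := Ext.contravariant_sequence_exact₂ hS (ModuleCat.of R V) x (hK.elim _ _)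
    rw [← hx1, hC.elim x1 0, Ext.comp_zero]
  exact ⟨fun x y => by rw [h1 x, h1 y]⟩

/-- dimension shift, upwards -/
lemma ev_up (g : B →ₗ[R] C) (hg : Function.Surjective g) (n : ℕ)
    (hB : EV R (n + 1) B V) (hK : EV R n (LinearMap.ker g) V) : EV R (n + 1) C V := by
  have hS := LinearMap.shortExact_shortComplexKer hg
  have h1 : ∀ x : Ext (ModuleCat.of R C) (ModuleCat.of R V) (n + 1), x = 0 := by
    intro x
    obtain ⟨x1, hx1⟩ := Ext.contravariant_sequence_exact₃ hS (ModuleCat.of R V) x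
      (hB.elim _ _) (add_comm 1 n)
    rw [← hx1, hK.elim x1 0, Ext.comp_zero]
  exact ⟨fun x y => by rw [h1 x, h1 y]⟩

/-- dimension shift, upwards, degree one -/
lemma ev_up_one (g : B →ₗ[R] C) (hg : Function.Surjective g)
    (hB : EV R 1 B V) (hK : ∀ h : LinearMap.ker g →ₗ[R] V, ∃ h' : B →ₗ[R] V,
      ∀ x : LinearMap.ker g, h' x = h x) : EV R 1 C V := by
  have hS := LinearMap.shortExact_shortComplexKer hg
  have h1 : ∀ x : Ext (ModuleCat.of R C) (ModuleCat.of R V) 1, x = 0 := by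
    intro x
    obtain ⟨x1, hx1⟩ := Ext.contravariant_sequence_exact₃ hS (ModuleCat.of R V) x
      (hB.elim _ _) (add_comm 1 0)
    obtain ⟨h, rfl⟩ := (Ext.mk₀_bijective _ _).2 x1
    obtain ⟨h', hh'⟩ := hK h.hom
    have h2 : h = g.shortComplexKer.f ≫ ModuleCat.ofHom h' := by
      refine ModuleCat.hom_ext (LinearMap.ext fun x => ?_)
      exact (hh' x).symm
    rw [← hx1, h2, ← Ext.mk₀_comp_mk₀]
    exact hS.extClass_comp_assoc _
  exact ⟨fun x y => by rw [h1 x, h1 y]⟩

/-- dimension shift, downwards -/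
lemma ev_down (g : B →ₗ[R] C) (hg : Function.Surjective g) (n : ℕ)
    (hB : EV R n B V) (hC : EV R (n + 1) C V) : EV R n (LinearMap.ker g) V := by
  have hS := LinearMap.shortExact_shortComplexKer hg
  have h1 : ∀ x : Ext (ModuleCat.of R (LinearMap.ker g)) (ModuleCat.of R V) n, x = 0 := by
    intro x
    obtain ⟨x1, hx1⟩ := Ext.contravariant_sequence_exact₁ hS (ModuleCat.of R V) x
      (add_comm 1 n) (hC.elim _ _)
    rw [← hx1, hB.elim x1 0, Ext.comp_zero]
  exact ⟨fun x y => by rw [h1 x, h1 y]⟩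

/-- dimension shift, downwards, degree one -/
lemma ev_down_one (g : B →ₗ[R] C) (hg : Function.Surjective g)
    (hC : EV R 1 C V) (h : LinearMap.ker g →ₗ[R] V) : ∃ h' : B →ₗ[R] V,
      ∀ x : LinearMap.ker g, h' x = h x := by
  have hS := LinearMap.shortExact_shortComplexKer hg
  obtain ⟨x2, hx2⟩ := Ext.contravariant_sequence_exact₁ hS (ModuleCat.of R V)
    (Ext.mk₀ (ModuleCat.ofHom h)) (add_comm 1 0) (hC.elim _ _)
  obtain ⟨h', rfl⟩ := (Ext.mk₀_bijective _ _).2 x2
  rw [Ext.mk₀_comp_mk₀] at hx2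
  have h3 := (Ext.mk₀_bijective _ _).1 hx2
  refine ⟨h'.hom, fun x => ?_⟩
  have h4 := congrArg (fun f => f.hom x) h3
  exact h4

lemma ev_congr (e : B ≃ₗ[R] C) (n : ℕ) (h : EV R n B V) : EV R n C V := by
  refine ⟨fun x y => ?_⟩
  have h1 : ∀ x : Ext (ModuleCat.of R C) (ModuleCat.of R V) n, x = 0 := by
    intro x
    have h2 : ModuleCat.ofHom (e.symm : C →ₗ[R] B) ≫ ModuleCat.ofHom (e : B →ₗ[R] C) =
        𝟙 (ModuleCat.of R C) := by
      refine ModuleCat.hom_ext (LinearMap.ext fun b => ?_)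
      exact e.apply_symm_apply b
    rw [← Ext.mk₀_id_comp x, ← h2, ← Ext.mk₀_comp_mk₀,
      Ext.comp_assoc (h₁₂ := zero_add 0) (h₂₃ := zero_add n) (h := by omega),
      h.elim ((Ext.mk₀ (ModuleCat.ofHom (e : B →ₗ[R] C))).comp x (zero_add n)) 0, Ext.comp_zero]
  rw [h1 x, h1 y]

/-- modules of finite exponent -/
lemma ev_exponent (m : ℤ) (hB : ∀ b : B, m • b = 0) (u : V →ₗ[R] V) (hu : ∀ v, u (m • v) = v)
    (n : ℕ) : EV R n B V := by
  have h1 : ∀ x : Ext (ModuleCat.of R B) (ModuleCat.of R V) n, x = 0 := by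
    intro x
    have h2 : (m • (𝟙 (ModuleCat.of R B))) = 0 := by
      refine ModuleCat.hom_ext (LinearMap.ext fun b => ?_)
      exact hB b
    have h3 : m • x = 0 := by
      have h4 : (Ext.mk₀ (m • (𝟙 (ModuleCat.of R B)))).comp x (zero_add n) = m • x := by
        rw [show Ext.mk₀ (m • (𝟙 (ModuleCat.of R B))) = m • Ext.mk₀ (𝟙 (ModuleCat.of R B)) from
          map_zsmul (Ext.addEquiv₀ (X := ModuleCat.of R B) (Y := ModuleCat.of R B)).symm m _]
        have h5 : (m • Ext.mk₀ (𝟙 (ModuleCat.of R B))).comp x (zero_add n) =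
            m • ((Ext.mk₀ (𝟙 (ModuleCat.of R B))).comp x (zero_add n)) :=
          map_zsmul (AddMonoidHom.mk' (fun y => Ext.comp y x (zero_add n))
            (fun a b => Ext.add_comp a b x (zero_add n))) m _
        rw [h5, Ext.mk₀_id_comp]
      rw [← h4, h2, Ext.mk₀_zero, Ext.zero_comp]
    have h6 : ModuleCat.ofHom (m • (LinearMap.id : V →ₗ[R] V)) ≫ ModuleCat.ofHom u =
        𝟙 (ModuleCat.of R V) := by
      refine ModuleCat.hom_ext (LinearMap.ext fun v => ?_)
      exact hu v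
    have h7 : x.comp (Ext.mk₀ (ModuleCat.ofHom (m • (LinearMap.id : V →ₗ[R] V)))) (add_zero n) =
        m • x := by
      have h8 : (Ext.mk₀ (ModuleCat.ofHom (m • (LinearMap.id : V →ₗ[R] V)))) =
          m • Ext.mk₀ (𝟙 (ModuleCat.of R V)) := by
        rw [show m • Ext.mk₀ (𝟙 (ModuleCat.of R V)) = Ext.mk₀ (m • 𝟙 (ModuleCat.of R V)) from
          (map_zsmul (Ext.addEquiv₀ (X := ModuleCat.of R V) (Y := ModuleCat.of R V)).symm m _).symm]
        rfl
      rw [h8]
      have h9 : x.comp (m • Ext.mk₀ (𝟙 (ModuleCat.of R V))) (add_zero n) =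
          m • (x.comp (Ext.mk₀ (𝟙 (ModuleCat.of R V))) (add_zero n)) :=
        map_zsmul (AddMonoidHom.mk' (fun y => Ext.comp x y (add_zero n))
          (fun a b => Ext.comp_add x a b (add_zero n))) m _
      rw [h9, Ext.comp_mk₀_id]
    rw [← Ext.comp_mk₀_id x, ← h6, ← Ext.mk₀_comp_mk₀,
      ← Ext.comp_assoc (h₁₂ := add_zero n) (h₂₃ := add_zero 0) (h := by omega), h7, h3,
      Ext.zero_comp]
  exact ⟨fun x y => by rw [h1 x, h1 y]⟩

end

end Pool.Agent.Q111.AE
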