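import Pool.Agent.Q111.AE.Twist

/-!
Fell absorption for finite-dimensional bounded representations, as a homomorphism of rings
`C*_r(Q) → M_m(C*_r(Q))`.
-/

set_option autoImplicit false
set_option linter.unusedSectionVars false

open scoped Matrix ENNReal

namespace Pool.Agent.Q111.AE

open Pool.Agent.H919R4.ZS
open Pool.Agent.TH38.ZT (ExAt contraction' ex_comp hom_ext_single)
open MonoidAlgebra (single)

noncomputable section

variable {Q : Type} [Group Q]

/-! ### multiplication operators -/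

lemma memlp_mul {f h : Q → ℂ} {B : ℝ} (hf : ∀ x, ‖f x‖ ≤ B) (hh : Memℓp h 2) :
    Memℓp (fun x => f x * h x) 2 := by
  have h1 : Memℓp (fun x => (B : ℂ) * h x) 2 := by
    exact hh.const_smul (B : ℂ)
  have h2 : 0 < (2 : ℝ≥0∞).toReal := by norm_num
  rw [memℓp_gen_iff h2] at h1 ⊢
  refine Summable.of_nonneg_of_le (fun x => by positivity) (fun x => ?_) h1
  refine Real.rpow_le_rpow (norm_nonneg _) ?_ (by norm_num)
  rw [norm_mul, norm_mul, Complex.norm_real]
  refine mul_le_mul_of_nonneg_right ((hf x).trans (le_abs_self B)) (norm_nonneg _)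

/-- multiplication by a bounded function -/
def mulL (f : Q → ℂ) {B : ℝ} (hf : ∀ x, ‖f x‖ ≤ B) : Hil Q →ₗ[ℂ] Hil Q where
  toFun h := Hil.mk (fun x => f x * h.fn x) (memlp_mul hf h.memlp)
  map_add' h k := by
    refine Subtype.ext (funext fun x => ?_)
    change f x * (h.fn x + k.fn x) = f x * h.fn x + f x * k.fn x
    ring
  map_smul' c h := by
    refine Subtype.ext (funext fun x => ?_)
    change f x * (c * h.fn x) = c * (f x * h.fn x)
    ring

lemma norm_mulL (f : Q → ℂ) {B : ℝ} (hf : ∀ x, ‖f x‖ ≤ B) (h : Hil Q) :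
    ‖mulL f hf h‖ ≤ |B| * ‖h‖ := by
  have h2 : 0 < (2 : ℝ≥0∞).toReal := by norm_num
  have e : ∀ h : lp (fun _ : Q => ℂ) 2, ‖(show lp (fun _ : Q => ℂ) 2 from mulL f hf h)‖ ≤
      |B| * ‖h‖ := by
    intro h
    have e2 : ‖(show lp (fun _ : Q => ℂ) 2 from mulL f hf h)‖ ≤
        ‖((B : ℂ) • h : lp (fun _ : Q => ℂ) 2)‖ := by
      refine lp.norm_mono (p := 2) (by norm_num) (fun x => ?_)
      change ‖f x * h x‖ ≤ ‖(B : ℂ) * h x‖
      rw [norm_mul, norm_mul, Complex.norm_real]
      exact mul_le_mul_of_nonneg_right ((hf x).trans (le_abs_self B)) (norm_nonneg _)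
    rw [norm_smul, Complex.norm_real] at e2
    exact e2
  exact e h

/-- multiplication by a bounded function, as a bounded operator -/
def mulO (f : Q → ℂ) {B : ℝ} (hf : ∀ x, ‖f x‖ ≤ B) : Op Q :=
  (mulL f hf).mkContinuous |B| (norm_mulL f hf)

lemma mulO_fn (f : Q → ℂ) {B : ℝ} (hf : ∀ x, ‖f x‖ ≤ B) (h : Hil Q) (x : Q) :
    (mulO f hf h).fn x = f x * h.fn x := rfl

lemma fn_add (f g : Hil Q) (x : Q) : (f + g).fn x = f.fn x + g.fn x := rfl

lemma fn_zero (x : Q) : (0 : Hil Q).fn x = 0 := rfl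

lemma fn_sum {ι : Type} (s : Finset ι) (f : ι → Hil Q) (x : Q) :
    (∑ i ∈ s, f i).fn x = ∑ i ∈ s, (f i).fn x := by
  classical
  induction s using Finset.induction_on with
  | empty => rw [Finset.sum_empty, Finset.sum_empty]; rfl
  | insert a s ha ih => rw [Finset.sum_insert ha, Finset.sum_insert ha, fn_add, ih]

variable {m : ℕ} (π : Q →* Matrix (Fin m) (Fin m) ℂ) {B : ℝ} (hπ : ∀ g i j, ‖π g i j‖ ≤ B)

/-- the diagonal operator -/
def UU : Matrix (Fin m) (Fin m) (Op Q) := fun i j => mulO (fun x => π x i j) (fun x => hπ x i j)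

/-- its inverse -/
def UV : Matrix (Fin m) (Fin m) (Op Q) :=
  fun i j => mulO (fun x => π x⁻¹ i j) (fun x => hπ x⁻¹ i j)

lemma op_ext {A B : Op Q} (h : ∀ f x, (A f).fn x = (B f).fn x) : A = B :=
  ContinuousLinearMap.ext fun f => hil_ext fun x => h f x

lemma op_sum_fn {ι : Type} [Fintype ι] (A : ι → Op Q) (f : Hil Q) (x : Q) :
    ((∑ i, A i) f).fn x = ∑ i, (A i f).fn x := by
  rw [show (∑ i, A i) f = ∑ i, A i f from sum_apply _ _ _, fn_sum]

lemma UU_UV : UU π hπ * UV π hπ = 1 := by
  refine funext fun i => funext fun j => op_ext fun f x => ?_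
  rw [Matrix.mul_apply, op_sum_fn]
  have h1 : ∑ k, (((UU π hπ) i k * (UV π hπ) k j) f).fn x = (π x * π x⁻¹) i j * f.fn x := by
    rw [Matrix.mul_apply, Finset.sum_mul]
    refine Finset.sum_congr rfl fun k _ => ?_
    change π x i k * (π x⁻¹ k j * f.fn x) = _
    ring
  rw [h1, ← map_mul, mul_inv_cancel, map_one]
  by_cases h : i = j
  · subst h
    rw [Matrix.one_apply_eq, Matrix.one_apply_eq, one_mul]; rfl
  · rw [Matrix.one_apply_ne h, Matrix.one_apply_ne h, zero_mul]; rfl

lemma UV_UU : UV π hπ * UU π hπ = 1 := by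
  refine funext fun i => funext fun j => op_ext fun f x => ?_
  rw [Matrix.mul_apply, op_sum_fn]
  have h1 : ∑ k, (((UV π hπ) i k * (UU π hπ) k j) f).fn x = (π x⁻¹ * π x) i j * f.fn x := by
    rw [Matrix.mul_apply, Finset.sum_mul]
    refine Finset.sum_congr rfl fun k _ => ?_
    change π x⁻¹ i k * (π x k j * f.fn x) = _
    ring
  rw [h1, ← map_mul, inv_mul_cancel, map_one]
  by_cases h : i = j
  · subst h
    rw [Matrix.one_apply_eq, Matrix.one_apply_eq, one_mul]; rfl
  · rw [Matrix.one_apply_ne h, Matrix.one_apply_ne h, zero_mul]; rfl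

/-- the homomorphism -/
def TO : Op Q →+* Matrix (Fin m) (Fin m) (Op Q) where
  toFun A := UU π hπ * Matrix.scalar (Fin m) A * UV π hπ
  map_one' := by rw [map_one, mul_one, UU_UV]
  map_mul' A C := by
    rw [map_mul]
    calc UU π hπ * (Matrix.scalar (Fin m) A * Matrix.scalar (Fin m) C) * UV π hπ =
        UU π hπ * Matrix.scalar (Fin m) A * 1 * Matrix.scalar (Fin m) C * UV π hπ := by
          rw [mul_one]; simp only [mul_assoc]
      _ = _ := by rw [← UV_UU π hπ]; simp only [mul_assoc]
  map_zero' := by rw [map_zero, mul_zero, zero_mul]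
  map_add' A C := by rw [map_add, mul_add, add_mul]

lemma TO_apply (A : Op Q) (i j : Fin m) :
    TO π hπ A i j = ∑ k, UU π hπ i k * A * UV π hπ k j := by
  change (UU π hπ * Matrix.scalar (Fin m) A * UV π hπ) i j = _
  rw [Matrix.mul_apply]
  refine Finset.sum_congr rfl fun k _ => ?_
  congr 1
  rw [Matrix.scalar_apply, Matrix.mul_diagonal]

lemma TO_lreg (g : Q) (i j : Fin m) : TO π hπ (lreg g) i j = π g i j • lreg g := by
  rw [TO_apply]
  refine op_ext fun f x => ?_
  rw [op_sum_fn]
  have h1 : ∑ k, ((UU π hπ i k * lreg g * UV π hπ k j) f).fn x =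
      (π x * π (g⁻¹ * x)⁻¹) i j * f.fn (g⁻¹ * x) := by
    rw [Matrix.mul_apply, Finset.sum_mul]
    refine Finset.sum_congr rfl fun k _ => ?_
    change π x i k * (π (g⁻¹ * x)⁻¹ k j * f.fn (g⁻¹ * x)) = _
    ring
  rw [h1, ← map_mul]
  have h2 : x * (g⁻¹ * x)⁻¹ = g := by group
  rw [h2]
  rfl

lemma TO_smul_lreg (c : ℂ) (g : Q) (i j : Fin m) :
    TO π hπ (c • lreg g) i j = (c * π g i j) • lreg g := by
  rw [TO_apply, mul_smul, ← TO_lreg π hπ g i j, TO_apply, Finset.smul_sum]
  refine Finset.sum_congr rfl fun k _ => ?_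
  rw [mul_smul_comm, smul_mul_assoc]

lemma TO_mem {A : Op Q} (hA : A ∈ redCstar Q) (i j : Fin m) : TO π hπ A i j ∈ redCstar Q := by
  let K : Subring (Op Q) :=
    { carrier := {A | ∀ i j, TO π hπ A i j ∈ redCstar Q}
      mul_mem' := fun {A C} hA hC i j => by
        rw [map_mul, Matrix.mul_apply]
        exact Subring.sum_mem _ fun k _ => Subring.mul_mem _ (hA i k) (hC k j)
      one_mem' := fun i j => by
        rw [map_one]
        by_cases h : i = j
        · subst h; rw [Matrix.one_apply_eq]; exact Subring.one_mem _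
        · rw [Matrix.one_apply_ne h]; exact Subring.zero_mem _
      add_mem' := fun {A C} hA hC i j => by
        rw [map_add]
        exact Subring.add_mem _ (hA i j) (hC i j)
      zero_mem' := fun i j => by
        rw [map_zero]
        exact Subring.zero_mem _
      neg_mem' := fun {A} hA i j => by
        rw [map_neg]
        exact Subring.neg_mem _ (hA i j) }
  have h1 : redCstar Q ≤ K := by
    refine Subring.topologicalClosure_minimal _ ?_ ?_
    · refine (Subring.closure_le).2 ?_
      rintro _ ⟨c, g, rfl⟩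
      intro i j
      rw [TO_smul_lreg]
      exact Subring.le_topologicalClosure _ (Subring.subset_closure ⟨_, g, rfl⟩)
    · have h2 : (K : Set (Op Q)) = ⋂ i, ⋂ j, {A | TO π hπ A i j ∈ redCstar Q} := by
        ext A
        simp only [Set.mem_iInter]
        rfl
      rw [h2]
      refine isClosed_iInter fun i => isClosed_iInter fun j => ?_
      have hc : Continuous (fun A : Op Q => TO π hπ A i j) := by
        simp only [TO_apply]
        exact continuous_finsetSum _ fun k _ =>
          (continuous_const.mul continuous_id).mul continuous_const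
      exact (Subring.isClosed_topologicalClosure (groupRing Q)).preimage hc
  exact h1 hA i j

/-- the underlying map -/
def TRf (a : RedC Q) : Matrix (Fin m) (Fin m) (RedC Q) :=
  fun i j => (⟨TO π hπ a.1 i j, TO_mem π hπ a.2 i j⟩ : redCstar Q)

/-- the homomorphism `C*_r(Q) → M_m(C*_r(Q))` -/
def TR : RedC Q →+* Matrix (Fin m) (Fin m) (RedC Q) where
  toFun a := TRf π hπ a
  map_one' := by
    funext i j
    refine Subtype.ext ?_
    change TO π hπ 1 i j = ((1 : Matrix (Fin m) (Fin m) (RedC Q)) i j).1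
    rw [map_one]
    by_cases h : i = j
    · subst h; rw [Matrix.one_apply_eq, Matrix.one_apply_eq]; rfl
    · rw [Matrix.one_apply_ne h, Matrix.one_apply_ne h]; rfl
  map_mul' a b := by
    funext i j
    rw [Matrix.mul_apply]
    refine Subtype.ext ?_
    refine Eq.trans ?_ (map_sum (redCstar Q).subtype
      (fun k => (TRf π hπ a i k * TRf π hπ b k j : redCstar Q)) Finset.univ).symm
    change TO π hπ (a.1 * b.1) i j = ∑ k, TO π hπ a.1 i k * TO π hπ b.1 k j
    rw [map_mul, Matrix.mul_apply]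
  map_zero' := by
    funext i j
    refine Subtype.ext ?_
    change TO π hπ 0 i j = _
    rw [map_zero]
    rfl
  map_add' a b := by
    funext i j
    refine Subtype.ext ?_
    change TO π hπ (a.1 + b.1) i j = _
    rw [map_add]
    rfl

lemma TR_coe (a : RedC Q) (i j : Fin m) : (TR π hπ a i j).1 = TO π hπ a.1 i j := rfl

/-- scalars in `C*_r(Q)` -/
def sc (c : ℂ) : RedC Q :=
  (⟨c • lreg 1, Subring.le_topologicalClosure _ (Subring.subset_closure ⟨c, 1, rfl⟩)⟩ : redCstar Q)

lemma lreg_one : (lreg 1 : Op Q) = 1 := (lregHom Q).map_one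

lemma TR_toRed (g : Q) (i j : Fin m) :
    TR π hπ (toRed Q (single g 1)) i j = sc (π g i j) * toRed Q (single g 1) := by
  refine Subtype.ext ?_
  have hL : (toOp Q (single g 1) : Op Q) = lreg g := by
    change MonoidAlgebra.liftNC _ _ _ = _
    rw [MonoidAlgebra.liftNC_single]
    change ((1 : ℤ) : Op Q) * lregHom Q g = lreg g
    rw [Int.cast_one, one_mul]
    rfl
  change TO π hπ (toOp Q (single g 1)) i j = (π g i j • (lreg 1 : Op Q)) * toOp Q (single g 1)
  rw [hL, TO_lreg, lreg_one, smul_mul_assoc, one_mul]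

end

end Pool.Agent.Q111.AE
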