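import Pool.Agent.Q111.AE.Complex
import Pool.Agent.TH38.ZT.Gen

/-!
`Ext` groups and complexes of free modules of finite rank, given by matrices.
-/

set_option autoImplicit false
set_option linter.unusedSectionVars false

open scoped Matrix

namespace Pool.Agent.Q111.AE

open Pool.Agent.H919R4.ZS (FinRes)
open Pool.Agent.TH38.ZT (ExAt contraction' ex_comp)

section lc

variable {R : Type} [Ring R] {V : Type} [AddCommGroup V] [Module R V] {n m : ℕ}

/-- linear combination -/
def lc (v : Fin n → V) : (Fin n → R) →ₗ[R] V where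
  toFun x := ∑ j, x j • v j
  map_add' x y := by simp [add_smul, Finset.sum_add_distrib]
  map_smul' r x := by simp [mul_smul, Finset.smul_sum]

lemma lc_apply (v : Fin n → V) (x : Fin n → R) : lc v x = ∑ j, x j • v j := rfl

lemma lc_single (v : Fin n → V) (j : Fin n) : lc v (Pi.single j (1 : R)) = v j := by
  rw [lc_apply, Finset.sum_eq_single j]
  · rw [Pi.single_eq_same, one_smul]
  · intro k _ hk
    rw [Pi.single_eq_of_ne hk, zero_smul]
  · intro h; exact absurd (Finset.mem_univ _) h

lemma sum_single_self (x : Fin n → R) : ∑ j, x j • (Pi.single j (1 : R) : Fin n → R) = x := by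
  funext k
  rw [Finset.sum_apply, Finset.sum_eq_single k]
  · rw [Pi.smul_apply, Pi.single_eq_same, smul_eq_mul, mul_one]
  · intro j _ hj
    rw [Pi.smul_apply, Pi.single_eq_of_ne hj.symm, smul_zero]
  · intro h; exact absurd (Finset.mem_univ _) h

lemma eq_lc (f : (Fin n → R) →ₗ[R] V) (x : Fin n → R) :
    f x = lc (fun j => f (Pi.single j 1)) x := by
  conv_lhs => rw [← sum_single_self x, map_sum]
  rw [lc_apply]
  exact Finset.sum_congr rfl fun j _ => by rw [map_smul]

lemma single_vecMul (D : Matrix (Fin m) (Fin n) R) (i : Fin m) :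
    (Pi.single i (1 : R) : Fin m → R) ᵥ* D = D i := by
  funext k
  rw [Matrix.vecMul, dotProduct, Finset.sum_eq_single i]
  · rw [Pi.single_eq_same, one_mul]
  · intro j _ hj
    rw [Pi.single_eq_of_ne hj, zero_mul]
  · intro h; exact absurd (Finset.mem_univ _) h

lemma lc_vecMul (D : Matrix (Fin m) (Fin n) R) (v : Fin n → V) (x : Fin m → R) :
    lc v (x ᵥ* D) = ∑ i, x i • ∑ k, D i k • v k := by
  rw [lc_apply]
  simp only [Matrix.vecMul, dotProduct, Finset.sum_smul, Finset.smul_sum, mul_smul]
  exact Finset.sum_comm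

end lc

/-! ### free resolutions and complexes given by matrices -/

section mat

variable (R : Type) [Ring R] (M : Type) [AddCommGroup M] [Module R M] (n : ℕ → ℕ)

/-- the modules `M, R^(n 0), R^(n 1), …` -/
def AM : ℕ → Type
  | 0 => M
  | k + 1 => Fin (n k) → R

instance : ∀ k, AddCommGroup (AM R M n k)
  | 0 => inferInstanceAs (AddCommGroup M)
  | k + 1 => inferInstanceAs (AddCommGroup (Fin (n k) → R))

instance : ∀ k, Module R (AM R M n k)
  | 0 => inferInstanceAs (Module R M)
  | k + 1 => inferInstanceAs (Module R (Fin (n k) → R))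

variable {R M n}

/-- the maps -/
def am (a0 : (Fin (n 0) → R) →ₗ[R] M) (d : ∀ k, Matrix (Fin (n (k + 1))) (Fin (n k)) R) :
    ∀ k, AM R M n (k + 1) →ₗ[R] AM R M n k
  | 0 => a0
  | k + 1 => (d k).vecMulLinear

/-- the cochain complex with values in `V` is exact in degree `p` -/
def CoEx (d : ∀ k, Matrix (Fin (n (k + 1))) (Fin (n k)) R) (V : Type) [AddCommGroup V]
    [Module R V] : ℕ → Prop
  | 0 => ∀ v : Fin (n 0) → V, (∀ i, ∑ j, d 0 i j • v j = 0) → v = 0
  | p + 1 => ∀ v : Fin (n (p + 1)) → V, (∀ i, ∑ j, d (p + 1) i j • v j = 0) →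
      ∃ w : Fin (n p) → V, ∀ i, v i = ∑ j, d p i j • w j

/-- the homology in degree `k + 1` of the complex given by the matrices `d` -/
abbrev Hom1 (d : ∀ k, Matrix (Fin (n (k + 1))) (Fin (n k)) R) (k : ℕ) : Type :=
  LinearMap.ker ((d k).vecMulLinear : (Fin (n (k + 1)) → R) →ₗ[R] _) ⧸
    (LinearMap.range ((d (k + 1)).vecMulLinear : (Fin (n (k + 1 + 1)) → R) →ₗ[R] _)).submoduleOf
      (LinearMap.ker ((d k).vecMulLinear : (Fin (n (k + 1)) → R) →ₗ[R] _))

variable (a0 : (Fin (n 0) → R) →ₗ[R] M) (d : ∀ k, Matrix (Fin (n (k + 1))) (Fin (n k)) R)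
  {V : Type} [AddCommGroup V] [Module R V]

lemma am_am (h0 : ∀ y, a0 (y ᵥ* d 0) = 0) (hdd : ∀ k, d (k + 1) * d k = 0) :
    ∀ k x, am a0 d k (am a0 d (k + 1) x) = 0 := by
  intro k
  cases k with
  | zero => exact fun x => h0 x
  | succ k =>
    have key : ∀ x : Fin (n (k + 1 + 1)) → R, (x ᵥ* d (k + 1)) ᵥ* d k = 0 := by
      intro x
      rw [Matrix.vecMul_vecMul, hdd, Matrix.vecMul_zero]
    exact key

lemma am_proj : ∀ k, Module.Projective R (AM R M n (k + 1)) := fun k =>
  inferInstanceAs (Module.Projective R (Fin (n k) → R))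

/-- vanishing of `Ext^p(M, V)` from the exactness of the cochain complex -/
theorem ev_of_coex (hs : Function.Surjective a0) (h0 : ∀ x, a0 x = 0 ↔ ∃ y, y ᵥ* d 0 = x)
    (hdd : ∀ k, d (k + 1) * d k = 0) (p : ℕ) (hco : CoEx d V p)
    (hH : ∀ k j, k + 2 + j = p → EV R j (Hom1 d k) V) : EV R p M V := by
  have h00 : ∀ y, a0 (y ᵥ* d 0) = 0 := fun y => (h0 _).2 ⟨y, rfl⟩
  cases p with
  | zero =>
    rw [ev_zero_iff]
    intro f
    have h1 := hco (fun j => f (a0 (Pi.single j 1))) (by
      intro i
      have h2 := eq_lc (f ∘ₗ a0) (d 0 i)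
      rw [LinearMap.comp_apply, ← single_vecMul (d 0) i, h00, map_zero] at h2
      rw [single_vecMul] at h2
      exact h2.symm)
    refine LinearMap.ext fun m => ?_
    obtain ⟨x, rfl⟩ := hs m
    have h3 := eq_lc (f ∘ₗ a0) x
    rw [LinearMap.comp_apply] at h3
    rw [h3, LinearMap.zero_apply, lc_apply]
    refine Finset.sum_eq_zero fun j _ => ?_
    have h4 : f (a0 (Pi.single j 1)) = 0 := congrFun h1 j
    rw [LinearMap.comp_apply, h4, smul_zero]
  | succ p =>
    have hmain := ev_of_exact (R := R) (V := V) (AM R M n) (am a0 d) (am_am a0 d h00 hdd) am_proj p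
      (by
        intro v hv
        obtain ⟨w, hw⟩ := hco (fun j => (v : (Fin (n (p + 1)) → R) →ₗ[R] V) (Pi.single j 1)) (by
          intro i
          have h2 := eq_lc (v : (Fin (n (p + 1)) → R) →ₗ[R] V) (d (p + 1) i)
          have h3 := hv (Pi.single i 1 : Fin (n (p + 2)) → R)
          have h4 : am a0 d (p + 2) (Pi.single i 1 : Fin (n (p + 2)) → R) = d (p + 1) i :=
            single_vecMul (d (p + 1)) i
          rw [h4] at h3
          exact h2.symm.trans h3)
        have key : ∀ (v' : (Fin (n (p + 1)) → R) →ₗ[R] V)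
            (_ : ∀ i, v' (Pi.single i 1) = ∑ j, d p i j • w j) (x : Fin (n (p + 1)) → R),
            v' x = lc w (x ᵥ* d p) := by
          intro v' hv' x
          rw [eq_lc v' x, lc_vecMul, lc_apply]
          exact Finset.sum_congr rfl fun i _ => by rw [hv']
        exact ⟨(lc w : (Fin (n p) → R) →ₗ[R] V), fun x => key v hw x⟩)
      (by
        intro k hk
        cases k with
        | zero =>
          have hsub : Subsingleton (HH (AM R M n) (am a0 d) 0) := by
            rw [Submodule.Quotient.subsingleton_iff, eq_top_iff]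
            rintro ⟨x, hx⟩ -
            obtain ⟨y, hy⟩ := (h0 x).1 hx
            exact ⟨y, hy⟩
          exact ev_of_subsingleton _
        | succ k => exact hH k (p - (k + 1)) (by omega))
    have hr : LinearMap.range (am a0 d 0) = ⊤ := LinearMap.range_eq_top.2 hs
    rw [hr] at hmain
    exact ev_congr (Submodule.topEquiv) _ hmain

/-- exactness of the cochain complex from the vanishing of `Ext^p(M, V)`, for a resolution -/
theorem coex_of_ev (hs : Function.Surjective a0) (h0 : ∀ x, a0 x = 0 ↔ ∃ y, y ᵥ* d 0 = x)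
    (hex : ∀ k (x : Fin (n (k + 1)) → R), x ᵥ* d k = 0 ↔ ∃ y, y ᵥ* d (k + 1) = x)
    (p : ℕ) (h : EV R p M V) : CoEx d V p := by
  have h00 : ∀ y, a0 (y ᵥ* d 0) = 0 := fun y => (h0 _).2 ⟨y, rfl⟩
  have hdd : ∀ k, d (k + 1) * d k = 0 := by
    intro k
    refine funext fun i => ?_
    rw [Matrix.mul_apply_eq_vecMul]
    exact (hex k _).2 ⟨Pi.single i 1, single_vecMul _ _⟩
  cases p with
  | zero =>
    intro v hv
    have hle : LinearMap.ker a0 ≤ LinearMap.ker (lc v : (Fin (n 0) → R) →ₗ[R] V) := by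
      intro x hx
      obtain ⟨y, rfl⟩ := (h0 x).1 hx
      rw [LinearMap.mem_ker, lc_vecMul]
      exact Finset.sum_eq_zero fun i _ => by rw [hv i, smul_zero]
    have h1 := (ev_zero_iff.1 h) ((Submodule.liftQ _ _ hle) ∘ₗ
      (a0.quotKerEquivOfSurjective hs).symm.toLinearMap)
    funext j
    have h2 := LinearMap.congr_fun h1 (a0 (Pi.single j 1))
    have h3 : (a0.quotKerEquivOfSurjective hs).symm (a0 (Pi.single j 1)) =
        Submodule.Quotient.mk (Pi.single j 1) := by
      rw [LinearEquiv.symm_apply_eq]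
      rfl
    change (Submodule.liftQ _ _ hle) ((a0.quotKerEquivOfSurjective hs).symm
      (a0 (Pi.single j 1))) = 0 at h2
    rw [h3, Submodule.liftQ_apply, lc_single] at h2
    exact h2
  | succ p =>
    have hr : LinearMap.range (am a0 d 0) = ⊤ := LinearMap.range_eq_top.2 hs
    have h' : EV R (p + 1) (LinearMap.range (am a0 d 0)) V := by
      rw [hr]
      exact ev_congr (Submodule.topEquiv).symm _ h
    have hmain := exact_of_ev (R := R) (V := V) (AM R M n) (am a0 d) (am_am a0 d h00 hdd) (by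
      intro k
      cases k with
      | zero => exact fun x hx => (h0 x).1 hx
      | succ k => exact fun x hx => (hex k x).1 hx) am_proj p h'
    intro v hv
    obtain ⟨w, hw⟩ := hmain (lc v : (Fin (n (p + 1)) → R) →ₗ[R] V) (by
      intro x
      refine (lc_vecMul (d (p + 1)) v x).trans ?_
      exact Finset.sum_eq_zero fun i _ => by rw [hv i, smul_zero])
    refine ⟨fun j => (w : (Fin (n p) → R) →ₗ[R] V) (Pi.single j 1), fun i => ?_⟩
    have h1 := hw (Pi.single i 1 : Fin (n (p + 1)) → R)
    have h2 : am a0 d (p + 1) (Pi.single i 1 : Fin (n (p + 1)) → R) = d p i :=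
      single_vecMul (d p) i
    rw [h2] at h1
    have h3 : (lc v : (Fin (n (p + 1)) → R) →ₗ[R] V) (Pi.single i 1) = v i := lc_single v i
    rw [← h3]
    exact h1.trans (eq_lc (w : (Fin (n p) → R) →ₗ[R] V) (d p i))

end mat

/-! ### modules over `S` -/

/-- an `S`-module as an `R`-module -/
def RV {R S : Type} [Ring R] [Ring S] (_ : R →+* S) (V : Type) : Type := V

section rv

variable {R S : Type} [Ring R] [Ring S] (φ : R →+* S) (V : Type) [AddCommGroup V] [Module S V]

instance : AddCommGroup (RV φ V) := inferInstanceAs (AddCommGroup V)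
instance : Module S (RV φ V) := inferInstanceAs (Module S V)
instance : Module R (RV φ V) := Module.compHom V φ

lemma rv_smul (r : R) (v : RV φ V) : r • v = φ r • v := rfl

/-- exactness with coefficients in `S` gives exactness of the cochains with values in
`S`-modules -/
theorem coex_of_ex {H : Type} [Group H] (Z : FinRes H) (ψ : MonoidAlgebra ℤ H →+* R) (p : ℕ)
    (h : ∀ i ≤ p, ExAt Z (φ.comp ψ) i) : CoEx (fun k => (Z.d k).map ψ) (RV φ V) p := by
  obtain ⟨s, hs0, hs⟩ := contraction' Z (φ.comp ψ) p h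
  cases p with
  | zero =>
    intro v hv
    funext j
    have h1 : v j = ∑ k, (s 0 * (Z.d 0).map (φ.comp ψ)) j k • v k := by
      rw [hs0, Finset.sum_eq_single j]
      · rw [Matrix.one_apply_eq, one_smul]
      · intro k _ hk
        rw [Matrix.one_apply_ne hk.symm, zero_smul]
      · intro h; exact absurd (Finset.mem_univ _) h
    rw [h1]
    simp only [Matrix.mul_apply, Finset.sum_smul, mul_smul]
    rw [Finset.sum_comm]
    refine Finset.sum_eq_zero fun i _ => ?_
    rw [← Finset.smul_sum]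
    have h2 : ∑ k, ((Z.d 0).map (φ.comp ψ)) i k • v k = 0 := hv i
    rw [h2, smul_zero]
  | succ p =>
    intro v hv
    refine ⟨fun k => ∑ l, s p k l • v l, fun i => ?_⟩
    have h1 : v i = ∑ k, ((Z.d p).map (φ.comp ψ) * s p +
        s (p + 1) * (Z.d (p + 1)).map (φ.comp ψ)) i k • v k := by
      rw [hs p le_rfl, Finset.sum_eq_single i]
      · rw [Matrix.one_apply_eq, one_smul]
      · intro k _ hk
        rw [Matrix.one_apply_ne hk.symm, zero_smul]
      · intro h; exact absurd (Finset.mem_univ _) h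
    have h2 : ∑ k, (s (p + 1) * (Z.d (p + 1)).map (φ.comp ψ)) i k • v k = 0 := by
      simp only [Matrix.mul_apply, Finset.sum_smul, mul_smul]
      rw [Finset.sum_comm]
      refine Finset.sum_eq_zero fun i _ => ?_
      rw [← Finset.smul_sum]
      have h2 : ∑ k, ((Z.d (p + 1)).map (φ.comp ψ)) i k • v k = 0 := hv i
      rw [h2, smul_zero]
    simp only [Matrix.add_apply, add_smul, Finset.sum_add_distrib] at h1
    rw [h2, add_zero] at h1
    rw [h1]
    simp only [Matrix.mul_apply, Finset.sum_smul, mul_smul, Finset.smul_sum]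
    rw [Finset.sum_comm]
    rfl

/-- the converse -/
theorem ex_of_coex {H : Type} [Group H] (Y : FinRes H) (φ : MonoidAlgebra ℤ H →+* S) (p : ℕ)
    (h : ∀ (V : Type) [AddCommGroup V] [Module S V], CoEx Y.d (RV φ V) p) : ExAt Y φ p := by
  let W : Type := (Fin (Y.n p) → S) ⧸ LinearMap.range (((Y.d p).map φ).vecMulLinear :
    (Fin (Y.n (p + 1)) → S) →ₗ[S] (Fin (Y.n p) → S))
  let q : (Fin (Y.n p) → S) →ₗ[S] W := Submodule.mkQ _
  have hq : ∀ x, q x = 0 ↔ ∃ y, y ᵥ* (Y.d p).map φ = x := by
    intro x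
    change (Submodule.Quotient.mk x : W) = 0 ↔ _
    rw [Submodule.Quotient.mk_eq_zero]
    rfl
  have hcoc : ∀ i, ∑ j, Y.d p i j • (show RV φ W from q (Pi.single j 1)) = 0 := by
    intro i
    have h1 := eq_lc q ((Y.d p).map φ i)
    have h2 : q ((Y.d p).map φ i) = 0 := (hq _).2 ⟨Pi.single i 1, single_vecMul _ _⟩
    exact h1.symm.trans h2
  cases p with
  | zero =>
    have h1 := h W (fun j => q (Pi.single j 1)) hcoc
    intro x
    rw [← hq, eq_lc q x, lc_apply]
    refine Finset.sum_eq_zero fun j _ => ?_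
    have h2 : q (Pi.single j 1) = 0 := congrFun h1 j
    rw [h2, smul_zero]
  | succ p =>
    obtain ⟨w, hw⟩ := h W (fun j => q (Pi.single j 1)) hcoc
    intro x hx
    rw [← hq, eq_lc q x, lc_apply]
    have h1 : ∑ i, x i • q (Pi.single i 1) =
        ∑ i, x i • ∑ j, ((Y.d p).map φ) i j • (show W from w j) :=
      Finset.sum_congr rfl fun i _ => congrArg (fun t => x i • t) (hw i)
    rw [h1]
    have h2 := lc_vecMul ((Y.d p).map φ) (fun j => (show W from w j)) x
    rw [← h2, hx, map_zero]

end rv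

end Pool.Agent.Q111.AE
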