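import Pool.Agent.Q111.AE.Twist

/-!
Homology with coefficients in `C*_r(G)` and quotients by amenable normal subgroups.
-/

set_option autoImplicit false
set_option linter.unusedSectionVars false

open scoped Matrix ENNReal

namespace Pool.Agent.Q111.AE

open Pool.Agent.H919R4.ZS
open Pool.Agent.H496R3.ZS (IsAmenable)
open Pool.Agent.TH38.ZT (ExAt exAt_iff contraction' ex_comp hom_ext_single exists_red)
open MonoidAlgebra (single)

noncomputable section

/-- The class of `R`-modules which have a finite filtration by submodules, such that every factor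
has finite exponent or is infinite cyclic (as abelian group). -/
inductive Mild (R : Type) [Ring R] : ∀ (M : Type) [AddCommGroup M] [Module R M], Prop
  | zero (M : Type) [AddCommGroup M] [Module R M] [Subsingleton M] : Mild R M
  | step (M : Type) [AddCommGroup M] [Module R M] (M' : Submodule R M) (h : Mild R M')
      (hq : (∃ m : ℤ, m ≠ 0 ∧ ∀ x : M ⧸ M', m • x = 0) ∨ Nonempty ((M ⧸ M') ≃+ ℤ)) : Mild R M

/-- The projection `ℤ[G] → ℤ[G/N]`. -/
def prN {G : Type} [Group G] (N : Subgroup G) [N.Normal] :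
    MonoidAlgebra ℤ G →+* MonoidAlgebra ℤ (G ⧸ N) :=
  MonoidAlgebra.mapDomainRingHom ℤ (QuotientGroup.mk' N)

lemma prN_single {G : Type} [Group G] (N : Subgroup G) [N.Normal] (g : G) (c : ℤ) :
    prN N (single g c) = single (QuotientGroup.mk g) c := by
  rw [prN, MonoidAlgebra.mapDomainRingHom_apply, MonoidAlgebra.mapDomain_single]; rfl

lemma prN_surj {G : Type} [Group G] (N : Subgroup G) [N.Normal] : Function.Surjective (prN N) := by
  intro r
  refine MonoidAlgebra.induction_linear r ?_ ?_ ?_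
  · exact ⟨0, map_zero _⟩
  · rintro x y ⟨a, ha⟩ ⟨b, hb⟩
    exact ⟨a + b, by rw [map_add, ha, hb]⟩
  · intro q c
    obtain ⟨g, rfl⟩ := QuotientGroup.mk_surjective q
    exact ⟨single g c, prN_single N g c⟩

lemma augm_single {G : Type} [Group G] (g : G) (c : ℤ) : augm G (single g c) = c := by
  change (MonoidAlgebra.lift ℤ ℤ G 1) (single g c) = _
  rw [MonoidAlgebra.lift_single]
  simp

lemma augm_prN {G : Type} [Group G] (N : Subgroup G) [N.Normal] (r : MonoidAlgebra ℤ G) :
    augm (G ⧸ N) (prN N r) = augm G r := by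
  refine MonoidAlgebra.induction_linear r ?_ ?_ ?_
  · simp
  · intro a b ha hb
    rw [map_add, map_add, map_add, ha, hb]
  · intro g c
    rw [prN_single, augm_single, augm_single]

/-- the trivial module `ℤ` -/
def TrivM (Q : Type) [Group Q] : Type := ℤ

section triv

variable (Q : Type) [Group Q]

instance : AddCommGroup (TrivM Q) := inferInstanceAs (AddCommGroup ℤ)
instance : Module (MonoidAlgebra ℤ Q) (TrivM Q) := Module.compHom ℤ (augm Q)

lemma trivM_smul (r : MonoidAlgebra ℤ Q) (x : TrivM Q) : r • x = augm Q r • x := rfl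

end triv

/-- multiplication by an integer is invertible in `C*_r(Q)` -/
lemma exists_inv (Q : Type) [Group Q] (m : ℤ) (hm : m ≠ 0) :
    ∃ c : RedC Q, (∀ s : RedC Q, c * s = s * c) ∧ m • c = 1 := by
  have h1 : (lreg 1 : Op Q) = 1 := (lregHom Q).map_one
  have hmem : (((m : ℂ)⁻¹ • (lreg 1 : Op Q)) : Op Q) ∈ redCstar Q :=
    Subring.le_topologicalClosure _ (Subring.subset_closure ⟨_, 1, rfl⟩)
  refine ⟨⟨(m : ℂ)⁻¹ • (lreg 1 : Op Q), hmem⟩, fun s => ?_, ?_⟩
  · refine Subtype.ext ?_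
    change ((m : ℂ)⁻¹ • (lreg 1 : Op Q)) * s.1 = s.1 * ((m : ℂ)⁻¹ • (lreg 1 : Op Q))
    rw [h1, smul_mul_assoc, mul_smul_comm, one_mul, mul_one]
  · refine Subtype.ext ?_
    change m • ((m : ℂ)⁻¹ • (lreg 1 : Op Q)) = 1
    rw [← Int.cast_smul_eq_zsmul ℂ, smul_smul, mul_inv_cancel₀ (by exact_mod_cast hm), one_smul, h1]

/-- `Ext` groups of mild modules -/
theorem ev_mild {Q : Type} [Group Q] (Y : FinRes Q) (p : ℕ)
    (h : ∀ i ≤ p, ExAt Y (toRed Q) i) (V : Type) [AddCommGroup V] [Module (RedC Q) V]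
    {M : Type} [iM : AddCommGroup M] [jM : Module (MonoidAlgebra ℤ Q) M]
    (hM : @Mild (MonoidAlgebra ℤ Q) _ M iM jM) : EV (MonoidAlgebra ℤ Q) p M (RV (toRed Q) V) := by
  induction hM with
  | zero M => exact ev_of_subsingleton p
  | step M M' h' hq ih =>
    refine ev_mid (Submodule.mkQ M') (Submodule.mkQ_surjective _) p ?_ ?_
    · exact ev_congr (LinearEquiv.ofEq _ _ (Submodule.ker_mkQ M').symm) p ih
    · rcases hq with ⟨m, hm, hx⟩ | ⟨⟨e⟩⟩
      · obtain ⟨c, hc1, hc2⟩ := exists_inv Q m hm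
        let u : RV (toRed Q) V →ₗ[MonoidAlgebra ℤ Q] RV (toRed Q) V :=
          { toFun := fun v => c • v
            map_add' := fun v w => smul_add _ _ _
            map_smul' := fun r v => by
              rw [RingHom.id_apply, rv_smul, rv_smul, smul_smul, smul_smul, hc1] }
        refine ev_exponent m hx u (fun v => ?_) p
        change c • (m • v) = v
        have h3 : c • (m • v) = (m • c) • v := by
          rw [smul_comm, smul_assoc]
        rw [h3, hc2, one_smul]
      · exact ev_cyclic Y e p h V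

section main

variable {G : Type} [Group G] (N : Subgroup G) [N.Normal]

lemma lift_row {a : ℕ} (x : Fin a → MonoidAlgebra ℤ (G ⧸ N)) :
    ∃ y : Fin a → MonoidAlgebra ℤ G, (fun j => prN N (y j)) = x := by
  choose y hy using fun j => prN_surj N (x j)
  exact ⟨y, funext hy⟩

lemma prN_vecMul {a b : ℕ} (D : Matrix (Fin a) (Fin b) (MonoidAlgebra ℤ G))
    (x : Fin a → MonoidAlgebra ℤ G) :
    (fun j => prN N ((x ᵥ* D) j)) = (fun i => prN N (x i)) ᵥ* D.map (prN N) := by
  funext j
  simp only [Matrix.vecMul, dotProduct, map_sum, map_mul, Matrix.map_apply]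

/-- the step for `Ext^p` of the trivial module -/
theorem ev_triv (X : FinRes G) (Y : FinRes (G ⧸ N)) (p : ℕ)
    (hX : ∀ j ≤ p, ExAt X ((toRed (G ⧸ N)).comp (prN N)) j)
    (hY : ∀ j < p, ExAt Y (toRed (G ⧸ N)) j)
    (hH : ∀ q, 1 ≤ q → q < p → Mild (MonoidAlgebra ℤ (G ⧸ N)) (X.homology (prN N) q))
    (V : Type) [AddCommGroup V] [Module (RedC (G ⧸ N)) V] :
    EV (MonoidAlgebra ℤ (G ⧸ N)) p (TrivM (G ⧸ N)) (RV (toRed (G ⧸ N)) V) := by
  let a0 : (Fin (X.n 0) → MonoidAlgebra ℤ (G ⧸ N)) →ₗ[MonoidAlgebra ℤ (G ⧸ N)] TrivM (G ⧸ N) :=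
    lc (fun j => (show TrivM (G ⧸ N) from X.aug j))
  have ha0 : ∀ x, a0 x = (show TrivM (G ⧸ N) from ∑ j, augm (G ⧸ N) (x j) * X.aug j) :=
    fun x => rfl
  have hdd : ∀ k, (X.d (k + 1)).map (prN N) * (X.d k).map (prN N) = 0 := by
    intro k
    rw [← Matrix.map_mul, d_mul_d]; ext; simp
  refine ev_of_coex a0 (fun k => (X.d k).map (prN N)) ?_ ?_ hdd p
    (coex_of_ex (toRed (G ⧸ N)) V X (prN N) p hX) ?_
  · intro x
    obtain ⟨y, hy⟩ := X.surj
    have h1 : a0 (fun j => prN N (y j)) = (show TrivM (G ⧸ N) from (1 : ℤ)) := by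
      rw [ha0]
      simp only [augm_prN]
      exact hy
    refine ⟨(show ℤ from x) • fun j => prN N (y j), ?_⟩
    rw [map_zsmul, h1]
    change (show ℤ from x) • (1 : ℤ) = (show ℤ from x)
    rw [smul_eq_mul, mul_one]
  · intro x
    rw [ha0]
    constructor
    · intro hx
      obtain ⟨x, rfl⟩ := lift_row N x
      have hx' : ∑ j, augm (G ⧸ N) (prN N (x j)) * X.aug j = 0 := hx
      simp only [augm_prN] at hx'
      obtain ⟨y, hy⟩ := (X.exact_zero x).1 hx'
      exact ⟨fun i => prN N (y i), by rw [← prN_vecMul, hy]⟩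
    · rintro ⟨y, rfl⟩
      obtain ⟨y, rfl⟩ := lift_row N y
      have h1 := (X.exact_zero (y ᵥ* X.d 0)).2 ⟨y, rfl⟩
      have h2 : ∑ j, augm (G ⧸ N) (((fun i => prN N (y i)) ᵥ* (X.d 0).map (prN N)) j) * X.aug j =
          0 := by
        rw [← prN_vecMul]
        simp only [augm_prN]
        exact h1
      exact h2
  · intro k j hkj
    have h1 : ∀ i ≤ j, ExAt Y (toRed (G ⧸ N)) i := fun i hi => hY i (by omega)
    exact ev_mild Y j h1 V (hH (k + 1) (by omega) (by omega))

/-- the trivial module and `Y` -/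
theorem ex_of_ev_triv {Q : Type} [Group Q] (Y : FinRes Q) (p : ℕ)
    (h : ∀ (V : Type) [AddCommGroup V] [Module (RedC Q) V],
      EV (MonoidAlgebra ℤ Q) p (TrivM Q) (RV (toRed Q) V)) : ExAt Y (toRed Q) p := by
  let a0 : (Fin (Y.n 0) → MonoidAlgebra ℤ Q) →ₗ[MonoidAlgebra ℤ Q] TrivM Q :=
    lc (fun j => (show TrivM Q from Y.aug j))
  refine ex_of_coex Y (toRed Q) p fun V _ _ => coex_of_ev a0 Y.d ?_ ?_ Y.exact_succ p (h V)
  · intro x
    obtain ⟨y, hy⟩ := Y.surj
    have h1 : a0 y = (show TrivM Q from (1 : ℤ)) := hy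
    refine ⟨(show ℤ from x) • y, ?_⟩
    rw [map_zsmul, h1]
    change (show ℤ from x) • (1 : ℤ) = (show ℤ from x)
    rw [smul_eq_mul, mul_one]
  · exact Y.exact_zero

/-- main theorem -/
theorem main (hN : IsAmenable N) (X : FinRes G) (Y : FinRes (G ⧸ N)) (i : ℕ)
    (hH : ∀ q, 1 ≤ q → q < i → Mild (MonoidAlgebra ℤ (G ⧸ N)) (X.homology (prN N) q))
    (hX : ∀ j ≤ i, Subsingleton (X.homology (toRed G) j)) :
    ∀ j ≤ i, Subsingleton (Y.homology (toRed (G ⧸ N)) j) := by
  obtain ⟨T, hT⟩ := exists_red hN (fun _ : G => 1) (fun _ => by norm_num) (fun _ _ => by norm_num)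
  have e0 : T.comp (toRed G) = (toRed (G ⧸ N)).comp (prN N) := by
    refine hom_ext_single fun g => ?_
    rw [RingHom.comp_apply, RingHom.comp_apply, hT, one_smul, prN_single]
  have hex : ∀ j ≤ i, ExAt X (toRed G) j := fun j hj => (exAt_iff X _ j).2 (hX j hj)
  have hex0 := ex_comp X (toRed G) T i hex
  rw [e0] at hex0
  have key : ∀ p, p ≤ i → ExAt Y (toRed (G ⧸ N)) p := by
    intro p
    induction p using Nat.strong_induction_on with
    | _ p ih =>
      intro hp
      refine ex_of_ev_triv Y p fun V _ _ => ?_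
      exact ev_triv N X Y p (fun j hj => hex0 j (by omega)) (fun j hj => ih j hj (by omega))
        (fun q h1 h2 => hH q h1 (by omega)) V
  exact fun j hj => (exAt_iff Y _ j).1 (key j hj)

end main

end

end Pool.Agent.Q111.AE
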