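import Pool.Agent.Q111.AE.Bdd
import Pool.Agent.Q111.AE.Main

/-!
Quotients by amenable normal subgroups, the case in which the last homology group of the kernel
is only finite-dimensional.
-/

set_option autoImplicit false
set_option linter.unusedSectionVars false

open scoped Matrix ENNReal

namespace Pool.Agent.Q111.AE

open Pool.Agent.H919R4.ZS
open Pool.Agent.H496R3.ZS (IsAmenable)
open Pool.Agent.TH38.ZT (ExAt exAt_iff contraction' ex_comp hom_ext_single exists_red)
open MonoidAlgebra (single)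

noncomputable section

/-- The abelian group `M` has finite rank: `ℚ ⊗ M` is a finite-dimensional vector space. -/
def FinRank (M : Type) [AddCommGroup M] : Prop :=
  ∃ (n : ℕ) (e : Fin n → M), ∀ x : M, ∃ (c : ℤ) (a : Fin n → ℤ), c ≠ 0 ∧ c • x = ∑ i, a i • e i

variable {Q : Type} [Group Q]

lemma sc_mul (a b : ℂ) : (sc a : RedC Q) * sc b = sc (a * b) := by
  refine Subtype.ext ?_
  change (a • (lreg 1 : Op Q)) * (b • lreg 1) = (a * b) • lreg 1
  rw [lreg_one, smul_mul_assoc, one_mul, smul_smul]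

lemma sc_int (n : ℤ) : (sc (n : ℂ) : RedC Q) = n • (1 : RedC Q) := by
  refine Subtype.ext ?_
  change (n : ℂ) • (lreg 1 : Op Q) = n • (1 : Op Q)
  rw [lreg_one, Int.cast_smul_eq_zsmul]

lemma sc_one : (sc 1 : RedC Q) = 1 := by
  refine Subtype.ext ?_
  change (1 : ℂ) • (lreg 1 : Op Q) = 1
  rw [lreg_one, one_smul]

/-- a module over `M_m(C*_r(Q))` as a module over `C*_r(Q)` -/
def MatV (W : Type) (m : ℕ) : Type := Fin m → W

section matv

variable {m : ℕ} (π : Q →* Matrix (Fin m) (Fin m) ℂ) {B : ℝ} (hπ : ∀ g i j, ‖π g i j‖ ≤ B)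
  (W : Type) [AddCommGroup W] [Module (RedC Q) W]

instance : AddCommGroup (MatV W m) := inferInstanceAs (AddCommGroup (Fin m → W))

open Matrix.Module in
/-- the module structure -/
@[instance_reducible] def matVMod : Module (RedC Q) (MatV W m) :=
  Module.compHom (Fin m → W) (TR π hπ)

end matv

lemma red_mul_smul {W : Type} [AddCommGroup W] [Module (RedC Q) W] (a b : RedC Q) (w : W) :
    (a * b) • w = a • b • w := (smul_smul a b w).symm

/-- the vector is zero -/
theorem vec_zero (Y : FinRes Q) (h0 : ExAt Y (toRed Q) 0) (V : Type) [AddCommGroup V]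
    [Module (RedC Q) V] (v : V)
    (hfin : ∃ (n : ℕ) (w : Fin n → V), ∀ g : Q, ∃ c : Fin n → ℂ,
      toRed Q (single g 1) • v = ∑ i, (sc (c i) : RedC Q) • w i) : v = 0 := by
  by_contra hv
  obtain ⟨W, i1, i2, m, π, B, b, hπ, hb, hfix⟩ := core V v hv hfin
  let i3 : Module (RedC Q) (MatV W m) := matVMod π hπ W
  have h1 := ev_cyclic (M := TrivM Q) Y (AddEquiv.refl ℤ) 0 (fun i hi => by
    have : i = 0 := by omega
    subst this; exact h0) (MatV W m)
  rw [ev_zero_iff] at h1
  have hfix' : ∀ g : Q, toRed Q (single g 1) • (show MatV W m from b) = b := by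
    intro g
    funext i
    change ∑ j, TR π hπ (toRed Q (single g 1)) i j • b j = b i
    rw [← hfix g i]
    refine Finset.sum_congr rfl fun j _ => ?_
    rw [TR_toRed]
    exact red_mul_smul _ _ _
  have hr : ∀ r : MonoidAlgebra ℤ Q, toRed Q r • (show MatV W m from b) =
      augm Q r • (show MatV W m from b) := by
    intro r
    refine MonoidAlgebra.induction_linear r ?_ ?_ ?_
    · rw [map_zero, map_zero, zero_smul, zero_smul]
    · intro x y hx hy
      rw [map_add, map_add, add_smul, add_smul, hx, hy]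
    · intro g c
      have h2 : (single g c : MonoidAlgebra ℤ Q) = c • single g 1 := by
        rw [MonoidAlgebra.smul_single, smul_eq_mul, mul_one]
      rw [augm_single, h2, map_zsmul, smul_assoc, hfix']
  let f : TrivM Q →ₗ[MonoidAlgebra ℤ Q] RV (toRed Q) (MatV W m) :=
    { toFun := fun n => (show ℤ from n) • (show MatV W m from b)
      map_add' := fun x y => add_smul (show ℤ from x) (show ℤ from y) (show MatV W m from b)
      map_smul' := fun r x => by
        change (augm Q r * (show ℤ from x)) • (show MatV W m from b) =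
          toRed Q r • ((show ℤ from x) • (show MatV W m from b))
        rw [smul_comm (toRed Q r) (show ℤ from x) (show MatV W m from b), hr, smul_smul, mul_comm] }
  have h3 := LinearMap.congr_fun (h1 f) (show TrivM Q from (1 : ℤ))
  have h4 : (1 : ℤ) • (show MatV W m from b) = 0 := h3
  rw [one_smul] at h4
  exact hb h4

/-- no homomorphisms from modules of finite rank -/
theorem ev_finRank (Y : FinRes Q) (h0 : ExAt Y (toRed Q) 0) (V : Type) [AddCommGroup V]
    [Module (RedC Q) V] (M : Type) [AddCommGroup M] [Module (MonoidAlgebra ℤ Q) M]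
    (hM : FinRank M) : EV (MonoidAlgebra ℤ Q) 0 M (RV (toRed Q) V) := by
  rw [ev_zero_iff]
  intro f
  refine LinearMap.ext fun x => ?_
  obtain ⟨n, e, he⟩ := hM
  refine vec_zero Y h0 V (f x) ⟨n, fun i => f (e i), fun g => ?_⟩
  obtain ⟨c, a, hc, hx⟩ := he ((single g (1 : ℤ) : MonoidAlgebra ℤ Q) • x)
  refine ⟨fun i => (c : ℂ)⁻¹ * (a i : ℂ), ?_⟩
  have h1 : c • (toRed Q (single g 1) • (show V from f x)) =
      ∑ i, a i • (show V from f (e i)) := by
    have h2 := congrArg f hx
    rw [map_zsmul, map_smul, map_sum] at h2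
    simp only [map_zsmul] at h2
    exact h2
  have h3 : ∀ (n : ℤ) (y : V), n • y = (sc (n : ℂ) : RedC Q) • y := by
    intro n y
    rw [sc_int, smul_assoc, one_smul]
  have h4 : toRed Q (single g 1) • (show V from f x) =
      (sc ((c : ℂ)⁻¹) : RedC Q) • (c • (toRed Q (single g 1) • (show V from f x))) := by
    rw [h3, smul_smul, sc_mul, inv_mul_cancel₀ (by exact_mod_cast hc), sc_one, one_smul]
  change toRed Q (single g 1) • (show V from f x) = _
  rw [h4, h1, Finset.smul_sum]
  refine Finset.sum_congr rfl fun i _ => ?_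
  rw [h3, smul_smul, sc_mul]

section main

variable {G : Type} [Group G] (N : Subgroup G) [N.Normal]

/-- the step for `Ext^p` of the trivial module -/
theorem ev_triv2 (X : FinRes G) (Y : FinRes (G ⧸ N)) (p : ℕ)
    (hX : ∀ j ≤ p, ExAt X ((toRed (G ⧸ N)).comp (prN N)) j)
    (hY : ∀ j < p, ExAt Y (toRed (G ⧸ N)) j)
    (hH : ∀ q, 1 ≤ q → q + 1 < p → Mild (MonoidAlgebra ℤ (G ⧸ N)) (X.homology (prN N) q))
    (hH' : ∀ q, 1 ≤ q → q + 1 = p → FinRank (X.homology (prN N) q))
    (V : Type) [AddCommGroup V] [Module (RedC (G ⧸ N)) V] :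
    EV (MonoidAlgebra ℤ (G ⧸ N)) p (TrivM (G ⧸ N)) (RV (toRed (G ⧸ N)) V) := by
  let a0 : (Fin (X.n 0) → MonoidAlgebra ℤ (G ⧸ N)) →ₗ[MonoidAlgebra ℤ (G ⧸ N)] TrivM (G ⧸ N) :=
    lc (fun j => (show TrivM (G ⧸ N) from X.aug j))
  have ha0 : ∀ x, a0 x = (show TrivM (G ⧸ N) from ∑ j, augm (G ⧸ N) (x j) * X.aug j) :=
    fun x => rfl
  have hdd : ∀ k, (X.d (k + 1)).map (prN N) * (X.d k).map (prN N) = 0 := by
    intro k
    rw [← Matrix.map_mul, d_mul_d]; ext; simp
  refine ev_of_coex a0 (fun k => (X.d k).map (prN N)) ?_ ?_ hdd p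
    (coex_of_ex (toRed (G ⧸ N)) V X (prN N) p hX) ?_
  · intro x
    obtain ⟨y, hy⟩ := X.surj
    have h1 : a0 (fun j => prN N (y j)) = (show TrivM (G ⧸ N) from (1 : ℤ)) := by
      rw [ha0]
      simp only [augm_prN]
      exact hy
    refine ⟨(show ℤ from x) • fun j => prN N (y j), ?_⟩
    rw [map_zsmul, h1]
    change (show ℤ from x) • (1 : ℤ) = (show ℤ from x)
    rw [smul_eq_mul, mul_one]
  · intro x
    rw [ha0]
    constructor
    · intro hx
      obtain ⟨x, rfl⟩ := lift_row N x
      have hx' : ∑ j, augm (G ⧸ N) (prN N (x j)) * X.aug j = 0 := hx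
      simp only [augm_prN] at hx'
      obtain ⟨y, hy⟩ := (X.exact_zero x).1 hx'
      exact ⟨fun i => prN N (y i), by rw [← prN_vecMul, hy]⟩
    · rintro ⟨y, rfl⟩
      obtain ⟨y, rfl⟩ := lift_row N y
      have h1 := (X.exact_zero (y ᵥ* X.d 0)).2 ⟨y, rfl⟩
      have h2 : ∑ j, augm (G ⧸ N) (((fun i => prN N (y i)) ᵥ* (X.d 0).map (prN N)) j) * X.aug j =
          0 := by
        rw [← prN_vecMul]
        simp only [augm_prN]
        exact h1
      exact h2
  · intro k j hkj
    cases j with
    | zero =>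
      exact ev_finRank Y (hY 0 (by omega)) V _ (hH' (k + 1) (by omega) (by omega))
    | succ j =>
      have h1 : ∀ i ≤ j + 1, ExAt Y (toRed (G ⧸ N)) i := fun i hi => hY i (by omega)
      exact ev_mild Y (j + 1) h1 V (hH (k + 1) (by omega) (by omega))

lemma Mild.finRank {R : Type} [Ring R] {M : Type} [iM : AddCommGroup M] [jM : Module R M]
    (h : @Mild R _ M iM jM) : FinRank M := by
  induction h with
  | zero M => exact ⟨0, Fin.elim0, fun x => ⟨1, Fin.elim0, one_ne_zero, Subsingleton.elim _ _⟩⟩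
  | step M M' h' hq ih =>
    obtain ⟨n, e, he⟩ := ih
    rcases hq with ⟨m, hm, hx⟩ | ⟨⟨f⟩⟩
    · refine ⟨n, fun i => (e i : M), fun x => ?_⟩
      have h1 : m • x ∈ M' := by
        rw [← Submodule.Quotient.mk_eq_zero M']
        exact hx (Submodule.Quotient.mk x)
      obtain ⟨c, a, hc, h2⟩ := he ⟨m • x, h1⟩
      refine ⟨c * m, a, mul_ne_zero hc hm, ?_⟩
      have h3 := congrArg (fun y : M' => (y : M)) h2
      simp only [Submodule.coe_sum] at h3
      rw [mul_smul]
      exact h3
    · obtain ⟨t, ht⟩ := Submodule.Quotient.mk_surjective M' (f.symm 1)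
      refine ⟨n + 1, Fin.cons t fun i => (e i : M), fun x => ?_⟩
      have h1 : x - f (Submodule.Quotient.mk x) • t ∈ M' := by
        rw [← Submodule.Quotient.mk_eq_zero M']
        have h2 : (Submodule.Quotient.mk (x - f (Submodule.Quotient.mk x) • t) : M ⧸ M') =
            Submodule.Quotient.mk x - f (Submodule.Quotient.mk x) •
              (Submodule.Quotient.mk t : M ⧸ M') := rfl
        rw [h2, ht]
        apply f.injective
        rw [map_sub, map_zsmul, f.apply_symm_apply, map_zero, smul_eq_mul, mul_one, sub_self]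
      obtain ⟨c, a, hc, h2⟩ := he ⟨_, h1⟩
      refine ⟨c, Fin.cons (c * f (Submodule.Quotient.mk x)) a, hc, ?_⟩
      have h3 := congrArg (fun y : M' => (y : M)) h2
      simp only [Submodule.coe_sum] at h3
      have h4 : c • (x - f (Submodule.Quotient.mk x) • t) = ∑ i, a i • (e i : M) := h3
      rw [Fin.sum_univ_succ, Fin.cons_zero, Fin.cons_zero]
      simp only [Fin.cons_succ]
      rw [← h4, smul_sub, smul_smul]
      abel

/-- main theorem -/
theorem main2 (hN : IsAmenable N) (X : FinRes G) (Y : FinRes (G ⧸ N)) (i : ℕ)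
    (hH : ∀ q, 1 ≤ q → q + 1 < i → Mild (MonoidAlgebra ℤ (G ⧸ N)) (X.homology (prN N) q))
    (hH' : ∀ q, 1 ≤ q → q + 1 = i → FinRank (X.homology (prN N) q))
    (hX : ∀ j ≤ i, Subsingleton (X.homology (toRed G) j)) :
    ∀ j ≤ i, Subsingleton (Y.homology (toRed (G ⧸ N)) j) := by
  obtain ⟨T, hT⟩ := exists_red hN (fun _ : G => 1) (fun _ => by norm_num) (fun _ _ => by norm_num)
  have e0 : T.comp (toRed G) = (toRed (G ⧸ N)).comp (prN N) := by
    refine hom_ext_single fun g => ?_
    rw [RingHom.comp_apply, RingHom.comp_apply, hT, one_smul, prN_single]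
  have hex : ∀ j ≤ i, ExAt X (toRed G) j := fun j hj => (exAt_iff X _ j).2 (hX j hj)
  have hex0 := ex_comp X (toRed G) T i hex
  rw [e0] at hex0
  have key : ∀ p, p ≤ i → ExAt Y (toRed (G ⧸ N)) p := by
    intro p
    induction p using Nat.strong_induction_on with
    | _ p ih =>
      intro hp
      refine ex_of_ev_triv Y p fun V _ _ => ?_
      refine ev_triv2 N X Y p (fun j hj => hex0 j (by omega)) (fun j hj => ih j hj (by omega))
        (fun q h1 h2 => hH q h1 (by omega)) (fun q h1 h2 => ?_) V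
      rcases Nat.lt_or_ge (q + 1) i with h3 | h3
      · exact (hH q h1 h3).finRank
      · exact hH' q h1 (by omega)
  exact fun j hj => (exAt_iff Y _ j).1 (key j hj)

end main

end

end Pool.Agent.Q111.AE
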