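import Pool.Agent.Q111.AE.Free
import Pool.Agent.TH38.ZT.Final

/-!
The automorphism of `C*_r(Q)` given by a character with values `±1`, and the corresponding
resolutions.
-/

set_option autoImplicit false
set_option linter.unusedSectionVars false

open scoped Matrix ENNReal

namespace Pool.Agent.Q111.AE

open Pool.Agent.H919R4.ZS
open Pool.Agent.TH38.ZT (ExAt contraction' ex_comp hom_ext_single)
open MonoidAlgebra (single)

noncomputable section

variable {Q : Type} [Group Q]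

/-! ### the operator -/

lemma sgn_cases (ε : Q →* ℤˣ) (g : Q) : ((ε g : ℤ) : ℂ) = 1 ∨ ((ε g : ℤ) : ℂ) = -1 := by
  rcases Int.units_eq_one_or (ε g) with h | h
  · left; rw [h]; simp
  · right; rw [h]; simp

lemma norm_sgn_mul (ε : Q →* ℤˣ) (g : Q) (z : ℂ) : ‖((ε g : ℤ) : ℂ) * z‖ = ‖z‖ := by
  rcases sgn_cases ε g with h | h <;> rw [h] <;> simp

lemma memlp_sgn (ε : Q →* ℤˣ) {f : Q → ℂ} (hf : Memℓp f 2) :
    Memℓp (fun h => ((ε h : ℤ) : ℂ) * f h) 2 := by
  have h2 : 0 < (2 : ℝ≥0∞).toReal := by norm_num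
  rw [memℓp_gen_iff h2] at hf ⊢
  simp only [norm_sgn_mul]
  exact hf

/-- multiplication by the character -/
def sgL (ε : Q →* ℤˣ) : Hil Q →ₗ[ℂ] Hil Q where
  toFun f := Hil.mk (fun h => ((ε h : ℤ) : ℂ) * f.fn h) (memlp_sgn ε f.memlp)
  map_add' f g := by
    refine Subtype.ext (funext fun h => ?_)
    change ((ε h : ℤ) : ℂ) * (f.fn h + g.fn h) = ((ε h : ℤ) : ℂ) * f.fn h + ((ε h : ℤ) : ℂ) * g.fn h
    ring
  map_smul' c f := by
    refine Subtype.ext (funext fun h => ?_)
    change ((ε h : ℤ) : ℂ) * (c * f.fn h) = c * (((ε h : ℤ) : ℂ) * f.fn h)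
    ring

lemma norm_sgL (ε : Q →* ℤˣ) (f : Hil Q) : ‖sgL ε f‖ = ‖f‖ := by
  have h2 : 0 < (2 : ℝ≥0∞).toReal := by norm_num
  have e : ∀ f : lp (fun _ : Q => ℂ) 2, ‖(show lp (fun _ : Q => ℂ) 2 from sgL ε f)‖ = ‖f‖ := by
    intro f
    rw [lp.norm_eq_tsum_rpow h2, lp.norm_eq_tsum_rpow h2]
    congr 1
    refine tsum_congr fun x => ?_
    congr 1
    exact norm_sgn_mul ε x (f x)
  exact e f

/-- multiplication by the character, as a bounded operator -/
def sgO (ε : Q →* ℤˣ) : Op Q :=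
  (sgL ε).mkContinuous 1 (fun f => by rw [norm_sgL, one_mul])

lemma sgO_fn (ε : Q →* ℤˣ) (f : Hil Q) (h : Q) : (sgO ε f).fn h = ((ε h : ℤ) : ℂ) * f.fn h := rfl

lemma hil_ext {f g : Hil Q} (h : ∀ x, f.fn x = g.fn x) : f = g := Subtype.ext (funext h)

lemma sgO_sq (ε : Q →* ℤˣ) : sgO ε * sgO ε = 1 := by
  refine ContinuousLinearMap.ext fun f => hil_ext fun x => ?_
  change ((ε x : ℤ) : ℂ) * (((ε x : ℤ) : ℂ) * f.fn x) = f.fn x
  rcases sgn_cases ε x with h | h <;> rw [h] <;> ring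

lemma sgO_lreg (ε : Q →* ℤˣ) (g : Q) : sgO ε * lreg g * sgO ε = ((ε g : ℤ) : ℂ) • lreg g := by
  refine ContinuousLinearMap.ext fun f => hil_ext fun x => ?_
  change ((ε x : ℤ) : ℂ) * (((ε (g⁻¹ * x) : ℤ) : ℂ) * f.fn (g⁻¹ * x)) =
    ((ε g : ℤ) : ℂ) * f.fn (g⁻¹ * x)
  have h1 : ε x = ε g * ε (g⁻¹ * x) := by rw [← map_mul, mul_inv_cancel_left]
  rw [h1]
  push_cast
  rcases sgn_cases ε (g⁻¹ * x) with h | h <;> rw [h] <;> ring

/-- conjugation by the operator -/
def cjO (ε : Q →* ℤˣ) : Op Q →+* Op Q where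
  toFun A := sgO ε * A * sgO ε
  map_one' := by rw [mul_one, sgO_sq]
  map_mul' A B := by
    calc sgO ε * (A * B) * sgO ε = sgO ε * A * 1 * B * sgO ε := by rw [mul_one]; simp only [mul_assoc]
      _ = _ := by rw [← sgO_sq ε]; simp only [mul_assoc]
  map_zero' := by rw [mul_zero, zero_mul]
  map_add' A B := by rw [mul_add, add_mul]

lemma cjO_mem (ε : Q →* ℤˣ) {A : Op Q} (hA : A ∈ redCstar Q) : cjO ε A ∈ redCstar Q := by
  have h1 : redCstar Q ≤ (redCstar Q).comap (cjO ε) := by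
    refine Subring.topologicalClosure_minimal _ ?_ ?_
    · refine (Subring.closure_le).2 ?_
      rintro _ ⟨c, g, rfl⟩
      change sgO ε * (c • lreg g) * sgO ε ∈ redCstar Q
      rw [mul_smul_comm, smul_mul_assoc, sgO_lreg, smul_smul]
      exact Subring.le_topologicalClosure _ (Subring.subset_closure ⟨_, g, rfl⟩)
    · have hc : Continuous (fun A : Op Q => sgO ε * A * sgO ε) :=
        (continuous_const.mul continuous_id).mul continuous_const
      exact (Subring.isClosed_topologicalClosure _).preimage hc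
  exact h1 hA

/-- the automorphism of `C*_r(Q)` -/
def cjR (ε : Q →* ℤˣ) : RedC Q →+* RedC Q :=
  ((cjO ε).comp (redCstar Q).subtype).codRestrict (redCstar Q) (fun x => cjO_mem ε x.2)

/-- the automorphism of `ℤ[Q]` -/
def tw (ε : Q →* ℤˣ) : MonoidAlgebra ℤ Q →+* MonoidAlgebra ℤ Q :=
  (MonoidAlgebra.lift ℤ (MonoidAlgebra ℤ Q) Q
    { toFun := fun g => single g (ε g : ℤ)
      map_one' := by rw [map_one]; rfl
      map_mul' := fun g h => by rw [MonoidAlgebra.single_mul_single, map_mul]; rfl }).toRingHom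

lemma tw_single (ε : Q →* ℤˣ) (g : Q) (c : ℤ) : tw ε (single g c) = single g (c * (ε g : ℤ)) := by
  change (MonoidAlgebra.lift ℤ (MonoidAlgebra ℤ Q) Q _) (single g c) = _
  rw [MonoidAlgebra.lift_single]
  change c • single g (ε g : ℤ) = _
  rw [MonoidAlgebra.smul_single, smul_eq_mul]

lemma tw_tw (ε : Q →* ℤˣ) (x : MonoidAlgebra ℤ Q) : tw ε (tw ε x) = x := by
  have h1 : (tw ε).comp (tw ε) = RingHom.id _ := by
    refine hom_ext_single fun g => ?_
    rw [RingHom.comp_apply, tw_single, tw_single, one_mul]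
    have : ((ε g : ℤˣ) : ℤ) * ((ε g : ℤˣ) : ℤ) = 1 := by
      rw [← Units.val_mul, Int.units_mul_self]; rfl
    rw [this]
    rfl
  exact congrArg (fun f => f x) h1

lemma cjR_toRed (ε : Q →* ℤˣ) : (cjR ε).comp (toRed Q) = (toRed Q).comp (tw ε) := by
  refine hom_ext_single fun g => ?_
  rw [RingHom.comp_apply, RingHom.comp_apply, tw_single, one_mul]
  refine Subtype.ext ?_
  have hL : ∀ c : ℤ, (toOp Q (single g c) : Op Q) = (c : ℂ) • lreg g := by
    intro c
    change MonoidAlgebra.liftNC _ _ _ = _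
    rw [MonoidAlgebra.liftNC_single, Int.cast_smul_eq_zsmul]
    change ((c : ℤ) : Op Q) * lregHom Q g = c • lreg g
    rw [← zsmul_eq_mul]
    rfl
  change sgO ε * (toOp Q (single g 1)) * sgO ε = toOp Q (single g (ε g : ℤ))
  rw [hL, hL, Int.cast_one, one_smul, sgO_lreg]

/-- exactness of the twisted complex -/
lemma ex_tw (Y : FinRes Q) (ε : Q →* ℤˣ) (p : ℕ) (h : ∀ i ≤ p, ExAt Y (toRed Q) i) :
    ∀ i ≤ p, ExAt Y ((toRed Q).comp (tw ε)) i := by
  rw [← cjR_toRed]
  exact ex_comp Y (toRed Q) (cjR ε) p h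

lemma map_tw_vecMul (ε : Q →* ℤˣ) {a b : ℕ} (D : Matrix (Fin a) (Fin b) (MonoidAlgebra ℤ Q))
    (x : Fin a → MonoidAlgebra ℤ Q) :
    (fun j => tw ε ((x ᵥ* D) j)) = (fun i => tw ε (x i)) ᵥ* D.map (tw ε) := by
  funext j
  simp only [Matrix.vecMul, dotProduct, map_sum, map_mul, Matrix.map_apply]

/-! ### infinite cyclic modules -/

section cyc

variable {M : Type} [AddCommGroup M] [Module (MonoidAlgebra ℤ Q) M]

/-- the group acts on an infinite cyclic module by a character with values `±1` -/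
lemma exists_sgn (e : M ≃+ ℤ) : ∃ ε : Q →* ℤˣ, ∀ (g : Q) (x : M),
    (single g (1 : ℤ) : MonoidAlgebra ℤ Q) • x = (ε g : ℤ) • x := by
  have h1 : ∀ (f : M →+ M) (x : M), f x = e (f (e.symm 1)) • x := by
    intro f x
    have h2 : x = e x • e.symm 1 := by
      apply e.injective
      rw [map_zsmul, e.apply_symm_apply, smul_eq_mul, mul_one]
    have h3 : f (e.symm 1) = e (f (e.symm 1)) • e.symm 1 := by
      apply e.injective
      rw [map_zsmul, e.apply_symm_apply, smul_eq_mul, mul_one]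
    conv_lhs => rw [h2, map_zsmul, h3]
    conv_rhs => rw [h2]
    rw [smul_smul, smul_smul, mul_comm]
  let act : Q → M →+ M := fun g =>
    { toFun := fun x => (single g (1 : ℤ) : MonoidAlgebra ℤ Q) • x
      map_zero' := smul_zero _
      map_add' := smul_add _ }
  let c : Q →* ℤ :=
    { toFun := fun g => e (act g (e.symm 1))
      map_one' := by
        change e ((single 1 1 : MonoidAlgebra ℤ Q) • e.symm 1) = 1
        rw [show (single 1 1 : MonoidAlgebra ℤ Q) = 1 from rfl, one_smul, e.apply_symm_apply]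
      map_mul' := fun g h => by
        have h2 : act (g * h) (e.symm 1) = act g (act h (e.symm 1)) := by
          change (single (g * h) 1 : MonoidAlgebra ℤ Q) • e.symm 1 =
            (single g 1 : MonoidAlgebra ℤ Q) • ((single h 1 : MonoidAlgebra ℤ Q) • e.symm 1)
          rw [smul_smul, MonoidAlgebra.single_mul_single, mul_one]
        change e (act (g * h) (e.symm 1)) = _
        rw [h2, h1 (act g) (act h (e.symm 1)), map_zsmul, smul_eq_mul] }
  refine ⟨c.toHomUnits, fun g x => ?_⟩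
  rw [MonoidHom.coe_toHomUnits]
  exact h1 (act g) x

lemma smul_sgn {ε : Q →* ℤˣ} (hε : ∀ (g : Q) (x : M),
    (single g (1 : ℤ) : MonoidAlgebra ℤ Q) • x = (ε g : ℤ) • x) (r : MonoidAlgebra ℤ Q) (x : M) :
    r • x = augm Q (tw ε r) • x := by
  refine MonoidAlgebra.induction_linear r ?_ ?_ ?_
  · rw [zero_smul, map_zero, map_zero, zero_smul]
  · intro a b ha hb
    rw [add_smul, ha, hb, map_add, map_add, add_smul]
  · intro g c
    have h1 : (single g c : MonoidAlgebra ℤ Q) = c • single g 1 := by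
      rw [MonoidAlgebra.smul_single, smul_eq_mul, mul_one]
    have h2 : augm Q (tw ε (single g c)) = c * (ε g : ℤ) := by
      rw [tw_single]
      change (MonoidAlgebra.lift ℤ ℤ Q 1) (single g (c * (ε g : ℤ))) = _
      rw [MonoidAlgebra.lift_single]
      simp
    rw [h2, h1, mul_smul, ← hε g x]
    rw [← Int.cast_smul_eq_zsmul (MonoidAlgebra ℤ Q) c (single g 1), smul_assoc,
      Int.cast_smul_eq_zsmul]

/-- the twisted resolution -/
theorem ev_cyclic (Y : FinRes Q) (e : M ≃+ ℤ) (p : ℕ) (h : ∀ i ≤ p, ExAt Y (toRed Q) i)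
    (V : Type) [AddCommGroup V] [Module (RedC Q) V] :
    EV (MonoidAlgebra ℤ Q) p M (RV (toRed Q) V) := by
  obtain ⟨ε, hε⟩ := exists_sgn (Q := Q) e
  have hsm := smul_sgn hε
  set m : M := e.symm 1 with hm
  have hmz : ∀ c : ℤ, c • m = 0 → c = 0 := by
    intro c hc
    have := congrArg e hc
    rwa [map_zsmul, hm, e.apply_symm_apply, map_zero, smul_eq_mul, mul_one] at this
  let a0 : (Fin (Y.n 0) → MonoidAlgebra ℤ Q) →ₗ[MonoidAlgebra ℤ Q] M := lc (fun j => Y.aug j • m)
  have ha0 : ∀ x, a0 x = (∑ j, augm Q (tw ε (x j)) * Y.aug j) • m := by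
    intro x
    change ∑ j, x j • (Y.aug j • m) = _
    rw [Finset.sum_smul]
    refine Finset.sum_congr rfl fun j _ => ?_
    rw [hsm, smul_smul]
  have hdd : ∀ k, (Y.d (k + 1)).map (tw ε) * (Y.d k).map (tw ε) = 0 := by
    intro k
    rw [← Matrix.map_mul, d_mul_d]; ext; simp
  refine ev_of_coex a0 (fun k => (Y.d k).map (tw ε)) ?_ ?_ hdd p
    (coex_of_ex (toRed Q) V Y (tw ε) p (ex_tw Y ε p h)) ?_
  · intro x
    obtain ⟨y, hy⟩ := Y.surj
    refine ⟨(e x) • fun j => tw ε (y j), ?_⟩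
    rw [map_zsmul, ha0]
    simp only [tw_tw]
    rw [hy, one_smul]
    apply e.injective
    rw [map_zsmul, hm, e.apply_symm_apply, smul_eq_mul, mul_one]
  · intro x
    rw [ha0]
    constructor
    · intro hx
      obtain ⟨y, hy⟩ := (Y.exact_zero (fun j => tw ε (x j))).1 (hmz _ hx)
      refine ⟨fun i => tw ε (y i), ?_⟩
      rw [← map_tw_vecMul, hy]
      funext j
      rw [tw_tw]
    · rintro ⟨y, rfl⟩
      have h1 : ∑ j, augm Q (tw ε ((y ᵥ* (Y.d 0).map (tw ε)) j)) * Y.aug j = 0 := by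
        refine (Y.exact_zero (fun j => tw ε ((y ᵥ* (Y.d 0).map (tw ε)) j))).2
          ⟨fun i => tw ε (y i), ?_⟩
        rw [map_tw_vecMul]
        congr 1
        funext i j
        rw [Matrix.map_apply, Matrix.map_apply, tw_tw]
      rw [h1, zero_smul]
  · intro k j _
    have hsub : Subsingleton (Hom1 (fun k => (Y.d k).map (tw ε)) k) := by
      rw [Submodule.Quotient.subsingleton_iff, eq_top_iff]
      rintro ⟨x, hx⟩ -
      have hx' : x ᵥ* (Y.d k).map (tw ε) = 0 := hx
      have h1 : (fun i => tw ε (x i)) ᵥ* Y.d k = 0 := by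
        have h2 := map_tw_vecMul ε ((Y.d k).map (tw ε)) x
        rw [hx'] at h2
        have h3 : ((Y.d k).map (tw ε)).map (tw ε) = Y.d k := by
          funext i j
          rw [Matrix.map_apply, Matrix.map_apply, tw_tw]
        rw [h3] at h2
        rw [← h2]
        funext j
        simp
      obtain ⟨y, hy⟩ := (Y.exact_succ k _).1 h1
      refine ⟨fun i => tw ε (y i), ?_⟩
      change (fun i => tw ε (y i)) ᵥ* (Y.d (k + 1)).map (tw ε) = x
      rw [← map_tw_vecMul, hy]
      funext j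
      rw [tw_tw]
    exact ev_of_subsingleton _

end cyc

end

end Pool.Agent.Q111.AE
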